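import Pool.Agent.H3.L2.Tensor

/-!
Group ring algebra: the involution, the Laplacian of a tensor product, moments of tensor products
and the McKean-Singer identity.
-/

set_option autoImplicit false

open scoped BigOperators Manifold ContDiff Topology
open MeasureTheory Filter

noncomputable section

namespace Pool.H3.L2

section adjoint

variable {Γ : Type} [Group Γ]

theorem coeff_adj (a : GR Γ) (g : Γ) : (adj a).coeff g = a.coeff g⁻¹ := by
  have h := Finsupp.mapDomain_apply (f := fun g : Γ => g⁻¹) inv_injective a.coeff g⁻¹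
  simp only [inv_inv] at h
  exact h

theorem adj_add (a b : GR Γ) : adj (a + b) = adj a + adj b := by
  ext g; simp [coeff_adj]

theorem adj_zero : adj (0 : GR Γ) = 0 := by
  ext g; simp [coeff_adj]

theorem adj_neg (a : GR Γ) : adj (-a) = -adj a := by
  ext g; simp [coeff_adj]

theorem adj_adj (a : GR Γ) : adj (adj a) = a := by
  ext g; simp [coeff_adj]

theorem adj_single (g : Γ) (n : ℤ) : adj (MonoidAlgebra.single g n : GR Γ) =
    MonoidAlgebra.single g⁻¹ n := by
  simp [adj, MonoidAlgebra.mapDomain_single]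

theorem adj_one : adj (1 : GR Γ) = 1 := by
  rw [MonoidAlgebra.one_def, adj_single, inv_one]

theorem adj_mul (a b : GR Γ) : adj (a * b) = adj b * adj a := by
  induction a using MonoidAlgebra.induction_linear with
  | zero => simp [adj_zero]
  | add x y hx hy => simp [add_mul, mul_add, hx, hy, adj_add]
  | single g r =>
    induction b using MonoidAlgebra.induction_linear with
    | zero => simp [adj_zero]
    | add x y hx hy => simp [add_mul, mul_add, hx, hy, adj_add]
    | single h r' =>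
      simp [adj_single, mul_comm]

theorem adj_sum {ι : Type} (s : Finset ι) (f : ι → GR Γ) : adj (∑ i ∈ s, f i) = ∑ i ∈ s, adj (f i) := by
  classical
  induction s using Finset.induction_on with
  | empty => simp [adj_zero]
  | insert a s ha ih => rw [Finset.sum_insert ha, Finset.sum_insert ha, adj_add, ih]

variable {S T U : Type}

theorem adjM_add (A B : Matrix S T (GR Γ)) : adjM (A + B) = adjM A + adjM B := by
  refine Matrix.ext fun s t => ?_
  exact adj_add _ _

theorem adjM_mul [Fintype T] (A : Matrix S T (GR Γ)) (B : Matrix T U (GR Γ)) :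
    adjM (A * B) = adjM B * adjM A := by
  refine Matrix.ext fun s t => ?_
  simp only [adjM, Matrix.mul_apply, adj_sum, adj_mul]

theorem adjM_adjM (A : Matrix S T (GR Γ)) : adjM (adjM A) = A := by
  refine Matrix.ext fun s t => ?_
  exact adj_adj _

theorem adjM_one [DecidableEq S] : adjM (1 : Matrix S S (GR Γ)) = 1 := by
  refine Matrix.ext fun s t => ?_
  simp only [adjM, Matrix.one_apply]
  by_cases h : s = t
  · subst h; simp [adj_one]
  · rw [if_neg h, if_neg (Ne.symm h), adj_zero]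

theorem adjM_zero : adjM (0 : Matrix S T (GR Γ)) = 0 := by
  refine Matrix.ext fun s t => ?_
  exact adj_zero

theorem adjM_lft [DecidableEq U] (A : Matrix S T (GR Γ)) : adjM (lft U A) = lft U (adjM A) := by
  refine Matrix.ext fun ⟨s, x⟩ ⟨t, y⟩ => ?_
  simp only [adjM, lft, Matrix.of_apply]
  by_cases h : x = y
  · subst h; simp
  · rw [if_neg h, if_neg (Ne.symm h), adj_zero]

theorem adjM_rgt [DecidableEq U] (A : Matrix S T (GR Γ)) : adjM (rgt U A) = rgt U (adjM A) := by
  refine Matrix.ext fun ⟨x, s⟩ ⟨y, t⟩ => ?_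
  simp only [adjM, rgt, Matrix.of_apply]
  by_cases h : x = y
  · subst h; simp
  · rw [if_neg h, if_neg (Ne.symm h), adj_zero]

theorem adjM_sgn [DecidableEq S] (d : S → ℕ) : adjM (sgnM (GR Γ) d) = sgnM (GR Γ) d := by
  refine Matrix.ext fun s t => ?_
  simp only [adjM, sgnM, Matrix.diagonal_apply]
  by_cases h : s = t
  · subst h
    simp only [if_true]
    rcases neg_one_pow_eq_or (GR Γ) (d s) with h1 | h1 <;> simp [h1, adj_one, adj_neg]
  · rw [if_neg h, if_neg (Ne.symm h), adj_zero]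

theorem regM_adjM {Q : Type} [Group Q] (φ : Γ →* Q) (A : Matrix S T (GR Γ)) :
    regM φ (adjM A) = (regM φ A).transpose := by
  ext ⟨t, y⟩ ⟨s, x⟩
  simp only [regM, Matrix.of_apply, Matrix.transpose_apply, adjM]
  have h : ∀ a : GR Γ, MonoidAlgebra.mapDomain φ (adj a) = adj (MonoidAlgebra.mapDomain φ a) := by
    intro a
    induction a using MonoidAlgebra.induction_linear with
    | zero => simp [adj_zero]
    | add x y hx hy => simp [adj_add, MonoidAlgebra.mapDomain_add, hx, hy]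
    | single g r => simp [adj_single, MonoidAlgebra.mapDomain_single]
  rw [h, coeff_adj]
  congr 1
  group

end adjoint

section product

variable {Γ1 Γ2 : Type} [Group Γ1] [Group Γ2]

theorem adj_inlR (a : GR Γ1) : adj (inlR Γ1 Γ2 a) = inlR Γ1 Γ2 (adj a) := by
  induction a using MonoidAlgebra.induction_linear with
  | zero => simp [adj_zero]
  | add x y hx hy => simp [adj_add, hx, hy]
  | single g r =>
    simp [inlR, MonoidAlgebra.mapDomainRingHom, MonoidAlgebra.mapDomain_single, adj_single]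

theorem adj_inrR (a : GR Γ2) : adj (inrR Γ1 Γ2 a) = inrR Γ1 Γ2 (adj a) := by
  induction a using MonoidAlgebra.induction_linear with
  | zero => simp [adj_zero]
  | add x y hx hy => simp [adj_add, hx, hy]
  | single g r =>
    simp [inrR, MonoidAlgebra.mapDomainRingHom, MonoidAlgebra.mapDomain_single, adj_single]

theorem coeff_inl_mul_inr (a : GR Γ1) (b : GR Γ2) (x : Γ1) (y : Γ2) :
    (inlR Γ1 Γ2 a * inrR Γ1 Γ2 b).coeff (x, y) = a.coeff x * b.coeff y := by
  classical
  induction a using MonoidAlgebra.induction_linear with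
  | zero => simp
  | add u v hu hv => simp [add_mul, hu, hv]
  | single g r =>
    induction b using MonoidAlgebra.induction_linear with
    | zero => simp
    | add u v hu hv => simp [mul_add, hu, hv]
    | single h r' =>
      simp only [inlR, inrR, MonoidAlgebra.mapDomainRingHom, RingHom.coe_mk, MonoidHom.coe_mk,
        OneHom.coe_mk, MonoidAlgebra.mapDomain_single, MonoidAlgebra.single_mul_single,
        MonoidAlgebra.coeff_single]
      simp only [MonoidHom.inl_apply, MonoidHom.inr_apply, Prod.mk_mul_mk, mul_one, one_mul,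
        Finsupp.single_apply, Prod.mk.injEq]
      by_cases h1 : g = x <;> by_cases h2 : h = y <;> simp [h1, h2]

variable (C1 : BCx (GR Γ1)) (C2 : BCx (GR Γ2))

theorem rgt_lft_comm (A : Matrix C1.S C1.S (GR (Γ1 × Γ2))) (B : Matrix C2.S C2.S (GR (Γ1 × Γ2)))
    (h : ∀ s t s' t', A s t * B s' t' = B s' t' * A s t) :
    rgt C1.S B * lft C2.S A = lft C2.S A * rgt C1.S B := by
  refine Matrix.ext fun ⟨s, s'⟩ ⟨t, t'⟩ => ?_
  rw [rgt_mul_lft, lft_mul_rgt, h]

theorem map_adjM_inl {S T : Type} (A : Matrix S T (GR Γ1)) :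
    (adjM A).map (inlR Γ1 Γ2) = adjM (A.map (inlR Γ1 Γ2)) := by
  refine Matrix.ext fun s t => ?_
  simp only [adjM, Matrix.map_apply, adj_inlR]

theorem map_adjM_inr {S T : Type} (A : Matrix S T (GR Γ2)) :
    (adjM A).map (inrR Γ1 Γ2) = adjM (A.map (inrR Γ1 Γ2)) := by
  refine Matrix.ext fun s t => ?_
  simp only [adjM, Matrix.map_apply, adj_inrR]

/-- The Laplacian of a tensor product is the sum of the Laplacians. -/
theorem Lap_xtens : (C1.xtens C2).Lap =
    (lft C2.S (C1.Lap.map (inlR Γ1 Γ2)) + rgt C1.S (C2.Lap.map (inrR Γ1 Γ2)) :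
      Matrix (C1.S × C2.S) (C1.S × C2.S) (GR (Γ1 × Γ2))) := by
  set A : Matrix C1.S C1.S (GR (Γ1 × Γ2)) := C1.D.map (inlR Γ1 Γ2) with hA
  set B : Matrix C2.S C2.S (GR (Γ1 × Γ2)) := C2.D.map (inrR Γ1 Γ2) with hB
  set e : Matrix C1.S C1.S (GR (Γ1 × Γ2)) := sgnM (GR (Γ1 × Γ2)) C1.deg with he
  have e1 : C1.Lap.map (inlR Γ1 Γ2) = A * adjM A + adjM A * A := by
    rw [BCx.Lap, Matrix.map_add _ (map_add _), Matrix.map_mul, Matrix.map_mul, map_adjM_inl]
  have e2 : C2.Lap.map (inrR Γ1 Γ2) = B * adjM B + adjM B * B := by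
    rw [BCx.Lap, Matrix.map_add _ (map_add _), Matrix.map_mul, Matrix.map_mul, map_adjM_inr]
  have hcomm : ∀ (M : Matrix C1.S C1.S (GR Γ1)) (N : Matrix C2.S C2.S (GR Γ2)),
      rgt C1.S (N.map (inrR Γ1 Γ2)) * lft C2.S (M.map (inlR Γ1 Γ2)) =
      lft C2.S (M.map (inlR Γ1 Γ2)) * rgt C1.S (N.map (inrR Γ1 Γ2)) := by
    intro M N
    refine rgt_lft_comm C1 C2 _ _ fun s t s' t' => ?_
    rw [Matrix.map_apply, Matrix.map_apply, inlR_comm]
  have hcomme : ∀ N : Matrix C2.S C2.S (GR (Γ1 × Γ2)),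
      rgt C1.S N * lft C2.S e = lft C2.S e * rgt C1.S N := by
    intro N
    refine rgt_lft_comm C1 C2 _ _ fun s t s' t' => ?_
    rw [he, sgnM, Matrix.diagonal_apply]
    split_ifs
    · rcases neg_one_pow_eq_or (GR (Γ1 × Γ2)) (C1.deg s) with h1 | h1 <;> simp [h1]
    · simp
  have c1 : rgt C1.S (adjM B) * lft C2.S A = lft C2.S A * rgt C1.S (adjM B) := by
    have := hcomm C1.D (adjM C2.D)
    rwa [map_adjM_inr] at this
  have c2 : rgt C1.S B * lft C2.S (adjM A) = lft C2.S (adjM A) * rgt C1.S B := by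
    have := hcomm (adjM C1.D) C2.D
    rwa [map_adjM_inl] at this
  have hee : lft C2.S e * lft C2.S e = 1 := by
    rw [← lft_mul, he, sgnM_sq, lft_one]
  have hA1 : e * A = -(A * e) := sgnM_mul _ _ (C1.map (inlR Γ1 Γ2)).deg_D
  have hA2 : adjM A * e = -(e * adjM A) := by
    have := congrArg adjM hA1
    rw [adjM_mul, adjM_sgn] at this
    rw [this]
    have h2 : adjM (-(A * e)) = -(adjM (A * e)) :=
      Matrix.ext fun s t => adj_neg _
    rw [h2, adjM_mul, adjM_sgn]
  have hD : (C1.xtens C2).D = (lft C2.S A + lft C2.S e * rgt C1.S B :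
      Matrix (C1.S × C2.S) (C1.S × C2.S) (GR (Γ1 × Γ2))) := rfl
  have hDa : adjM (C1.xtens C2).D = (lft C2.S (adjM A) + lft C2.S e * rgt C1.S (adjM B) :
      Matrix (C1.S × C2.S) (C1.S × C2.S) (GR (Γ1 × Γ2))) := by
    have : adjM (lft C2.S A + lft C2.S e * rgt C1.S B :
        Matrix (C1.S × C2.S) (C1.S × C2.S) (GR (Γ1 × Γ2))) =
        lft C2.S (adjM A) + lft C2.S e * rgt C1.S (adjM B) := by
      rw [adjM_add, adjM_mul, adjM_lft, adjM_lft, adjM_rgt, he, adjM_sgn, ← he, hcomme]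
    exact this
  have main : (lft C2.S A + lft C2.S e * rgt C1.S B) *
      (lft C2.S (adjM A) + lft C2.S e * rgt C1.S (adjM B)) +
      (lft C2.S (adjM A) + lft C2.S e * rgt C1.S (adjM B)) *
      (lft C2.S A + lft C2.S e * rgt C1.S B) =
      lft C2.S (A * adjM A + adjM A * A) + rgt C1.S (B * adjM B + adjM B * B) := by
    have t1 : lft C2.S e * rgt C1.S B * (lft C2.S (adjM A)) =
        lft C2.S (e * adjM A) * rgt C1.S B := by
      rw [Matrix.mul_assoc, c2, ← Matrix.mul_assoc, ← lft_mul]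
    have t2 : lft C2.S e * rgt C1.S B * (lft C2.S e * rgt C1.S (adjM B)) =
        rgt C1.S (B * adjM B) := by
      rw [Matrix.mul_assoc, ← Matrix.mul_assoc (rgt C1.S B), hcomme, Matrix.mul_assoc,
        ← Matrix.mul_assoc, hee, Matrix.one_mul, ← rgt_mul]
    have t3 : lft C2.S e * rgt C1.S (adjM B) * (lft C2.S A) =
        lft C2.S (e * A) * rgt C1.S (adjM B) := by
      rw [Matrix.mul_assoc, c1, ← Matrix.mul_assoc, ← lft_mul]
    have t4 : lft C2.S e * rgt C1.S (adjM B) * (lft C2.S e * rgt C1.S B) =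
        rgt C1.S (adjM B * B) := by
      rw [Matrix.mul_assoc, ← Matrix.mul_assoc (rgt C1.S (adjM B)), hcomme, Matrix.mul_assoc,
        ← Matrix.mul_assoc, hee, Matrix.one_mul, ← rgt_mul]
    have t5 : lft C2.S A * (lft C2.S e * rgt C1.S (adjM B)) =
        lft C2.S (A * e) * rgt C1.S (adjM B) := by
      rw [← Matrix.mul_assoc, ← lft_mul]
    have t6 : lft C2.S (adjM A) * (lft C2.S e * rgt C1.S B) =
        lft C2.S (adjM A * e) * rgt C1.S B := by
      rw [← Matrix.mul_assoc, ← lft_mul]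
    rw [add_mul, mul_add, mul_add, add_mul, mul_add, mul_add, t1, t2, t3, t4, t5, t6, hA1, hA2,
      lft_neg, lft_neg, ← lft_mul, ← lft_mul, lft_add, rgt_add]
    simp only [Matrix.neg_mul]
    abel
  rw [BCx.Lap, hDa, hD, e1, e2]
  exact main

theorem lft_pow {S U : Type} [Fintype S] [DecidableEq S] [Fintype U] [DecidableEq U] {R : Type}
    [Ring R] (A : Matrix S S R) (n : ℕ) : lft U (A ^ n) = (lft U A) ^ n := by
  induction n with
  | zero => rw [pow_zero, pow_zero, lft_one]
  | succ n ih => rw [pow_succ, pow_succ, lft_mul, ih]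

theorem rgt_pow {S U : Type} [Fintype S] [DecidableEq S] [Fintype U] [DecidableEq U] {R : Type}
    [Ring R] (A : Matrix S S R) (n : ℕ) : rgt U (A ^ n) = (rgt U A) ^ n := by
  induction n with
  | zero => rw [pow_zero, pow_zero, rgt_one]
  | succ n ih => rw [pow_succ, pow_succ, rgt_mul, ih]

theorem Lap_xtens_pow_apply (n : ℕ) (s : C1.S) (s' : C2.S) :
    (((C1.xtens C2).Lap ^ n) (s, s') (s, s')).coeff 1 =
      ∑ i ∈ Finset.range (n + 1), (n.choose i : ℤ) * ((C1.Lap ^ i) s s).coeff 1 *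
        ((C2.Lap ^ (n - i)) s' s').coeff 1 := by
  rw [Lap_xtens]
  have hc : Commute (lft C2.S (C1.Lap.map (inlR Γ1 Γ2))) (rgt C1.S (C2.Lap.map (inrR Γ1 Γ2))) := by
    refine (rgt_lft_comm C1 C2 _ _ fun s t s' t' => ?_).symm
    rw [Matrix.map_apply, Matrix.map_apply, inlR_comm]
  have hp := hc.add_pow n
  have hp2 := congrArg (fun M : Matrix (C1.S × C2.S) (C1.S × C2.S) (GR (Γ1 × Γ2)) =>
    (M (s, s') (s, s')).coeff 1) hp
  refine hp2.trans ?_
  rw [Matrix.sum_apply, MonoidAlgebra.coeff_sum, Finsupp.finsetSum_apply]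
  refine Finset.sum_congr rfl fun i _ => ?_
  have h1 : (C1.Lap.map (inlR Γ1 Γ2)) ^ i = (C1.Lap ^ i).map (inlR Γ1 Γ2) := by
    have := map_pow (inlR Γ1 Γ2).mapMatrix C1.Lap i
    exact this.symm
  have h2 : (C2.Lap.map (inrR Γ1 Γ2)) ^ (n - i) = (C2.Lap ^ (n - i)).map (inrR Γ1 Γ2) := by
    have := map_pow (inrR Γ1 Γ2).mapMatrix C2.Lap (n - i)
    exact this.symm
  rw [← lft_pow, ← rgt_pow, h1, h2]
  have h3 : ∀ (M : Matrix (C1.S × C2.S) (C1.S × C2.S) (GR (Γ1 × Γ2))) (m : ℕ) (a b),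
      (M * (m : Matrix (C1.S × C2.S) (C1.S × C2.S) (GR (Γ1 × Γ2)))) a b = m • M a b := by
    intro M m a b
    rw [← nsmul_eq_mul', Matrix.smul_apply]
  rw [h3, lft_mul_rgt, Matrix.map_apply, Matrix.map_apply]
  have h4 : ∀ (m : ℕ) (a : GR (Γ1 × Γ2)), (m • a).coeff 1 = (m : ℤ) * a.coeff 1 := by
    intro m a
    rw [MonoidAlgebra.coeff_smul_apply, nsmul_eq_mul]
  rw [h4]
  have h5 := coeff_inl_mul_inr ((C1.Lap ^ i) s s) ((C2.Lap ^ (n - i)) s' s') 1 1
  rw [show (1 : Γ1 × Γ2) = (1, 1) from rfl, h5, mul_assoc]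

theorem trk_xtens (k n : ℕ) :
    (C1.xtens C2).trk k ((C1.xtens C2).Lap ^ n) =
      ∑ p ∈ Finset.range (k + 1), ∑ i ∈ Finset.range (n + 1), (n.choose i : ℤ) *
        C1.trk p (C1.Lap ^ i) * C2.trk (k - p) (C2.Lap ^ (n - i)) := by
  have h0 : (C1.xtens C2).trk k ((C1.xtens C2).Lap ^ n) =
      ∑ s : C1.S, ∑ s' : C2.S, if C1.deg s + C2.deg s' = k then
        (((C1.xtens C2).Lap ^ n) (s, s') (s, s')).coeff 1 else 0 := by
    rw [BCx.trk]
    exact Fintype.sum_prod_type (f := fun x : C1.S × C2.S => if C1.deg x.1 + C2.deg x.2 = k then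
      (((C1.xtens C2).Lap ^ n) x x).coeff 1 else 0)
  rw [h0]
  simp only [Lap_xtens_pow_apply]
  have h1 : ∀ p ∈ Finset.range (k + 1), ∑ i ∈ Finset.range (n + 1), (n.choose i : ℤ) *
        C1.trk p (C1.Lap ^ i) * C2.trk (k - p) (C2.Lap ^ (n - i)) =
      ∑ s : C1.S, ∑ s' : C2.S, if C1.deg s = p ∧ C2.deg s' = k - p then
        ∑ i ∈ Finset.range (n + 1), (n.choose i : ℤ) * ((C1.Lap ^ i) s s).coeff 1 *
        ((C2.Lap ^ (n - i)) s' s').coeff 1 else 0 := by
    intro p _
    have h2 : ∀ i ∈ Finset.range (n + 1), (n.choose i : ℤ) *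
        C1.trk p (C1.Lap ^ i) * C2.trk (k - p) (C2.Lap ^ (n - i)) =
        ∑ s : C1.S, ∑ s' : C2.S, if C1.deg s = p ∧ C2.deg s' = k - p then
          (n.choose i : ℤ) * ((C1.Lap ^ i) s s).coeff 1 *
        ((C2.Lap ^ (n - i)) s' s').coeff 1 else 0 := by
      intro i _
      rw [BCx.trk, BCx.trk, mul_assoc, Finset.sum_mul_sum, Finset.mul_sum]
      refine Finset.sum_congr rfl fun s _ => ?_
      rw [Finset.mul_sum]
      refine Finset.sum_congr rfl fun s' _ => ?_
      by_cases ha : C1.deg s = p <;> by_cases hb : C2.deg s' = k - p <;> simp [ha, hb, mul_assoc]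
    rw [Finset.sum_congr rfl h2, Finset.sum_comm]
    refine Finset.sum_congr rfl fun s _ => ?_
    rw [Finset.sum_comm]
    refine Finset.sum_congr rfl fun s' _ => ?_
    split_ifs <;> simp
  rw [Finset.sum_congr rfl h1]
  symm
  rw [Finset.sum_comm]
  refine Finset.sum_congr rfl fun s _ => ?_
  rw [Finset.sum_comm]
  refine Finset.sum_congr rfl fun s' _ => ?_
  by_cases h : C1.deg s + C2.deg s' = k
  · rw [if_pos h, Finset.sum_eq_single (C1.deg s)]
    · rw [if_pos ⟨rfl, by omega⟩]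
    · intro p _ hp
      rw [if_neg]
      rintro ⟨h3, _⟩
      exact hp h3.symm
    · intro h3
      exfalso
      apply h3
      rw [Finset.mem_range]
      omega
  · rw [if_neg h]
    refine Finset.sum_eq_zero fun p hp => ?_
    rw [if_neg]
    rintro ⟨h3, h4⟩
    rw [Finset.mem_range] at hp
    omega

end product

section mckean

variable {Γ : Type} [Group Γ] (C : BCx (GR Γ))

theorem coeff_one_mul_comm (a b : GR Γ) : (a * b).coeff 1 = (b * a).coeff 1 := by
  classical
  induction a using MonoidAlgebra.induction_linear with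
  | zero => simp
  | add u v hu hv => simp [add_mul, mul_add, hu, hv]
  | single g r =>
    induction b using MonoidAlgebra.induction_linear with
    | zero => simp
    | add u v hu hv => simp [add_mul, mul_add, hu, hv]
    | single h r' =>
      simp only [MonoidAlgebra.single_mul_single, MonoidAlgebra.coeff_single,
        Finsupp.single_apply]
      have : g * h = 1 ↔ h * g = 1 := mul_eq_one_comm
      by_cases h1 : g * h = 1
      · rw [if_pos h1, if_pos (this.mp h1), mul_comm]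
      · rw [if_neg h1, if_neg (fun h2 => h1 (this.mpr h2))]

theorem Lap_D : C.Lap * C.D = C.D * C.Lap := by
  rw [BCx.Lap, add_mul, mul_add]
  have h1 : adjM C.D * C.D * C.D = 0 := by rw [Matrix.mul_assoc, C.D_D, Matrix.mul_zero]
  have h2 : C.D * (C.D * adjM C.D) = 0 := by rw [← Matrix.mul_assoc, C.D_D, Matrix.zero_mul]
  rw [h1, h2, add_zero, zero_add, Matrix.mul_assoc]

theorem Lap_pow_D (n : ℕ) : C.Lap ^ n * C.D = C.D * C.Lap ^ n := by
  induction n with
  | zero => simp
  | succ n ih => rw [pow_succ, Matrix.mul_assoc, Lap_D, ← Matrix.mul_assoc, ih, Matrix.mul_assoc]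

/-- McKean-Singer identity: the super trace of positive powers of the Laplacian vanishes. -/
theorem mckean (n : ℕ) (hn : 1 ≤ n) :
    ∑ s : C.S, (-1 : ℤ) ^ C.deg s * ((C.Lap ^ n) s s).coeff 1 = 0 := by
  obtain ⟨m, rfl⟩ : ∃ m, n = m + 1 := ⟨n - 1, by omega⟩
  set X := adjM C.D * C.Lap ^ m with hX
  have h1 : C.Lap ^ (m + 1) = C.D * X + X * C.D := by
    rw [hX, Matrix.mul_assoc, Lap_pow_D, pow_succ', BCx.Lap, add_mul]
    simp only [Matrix.mul_assoc]
  have h2 : ∀ Y : Matrix C.S C.S (GR Γ), ∑ s : C.S, (-1 : ℤ) ^ C.deg s * ((C.D * Y) s s).coeff 1 =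
      -∑ s : C.S, (-1 : ℤ) ^ C.deg s * ((Y * C.D) s s).coeff 1 := by
    intro Y
    have e1 : ∀ s, (-1 : ℤ) ^ C.deg s * ((C.D * Y) s s).coeff 1 =
        ∑ t, (-1 : ℤ) ^ C.deg s * (C.D s t * Y t s).coeff 1 := by
      intro s
      rw [Matrix.mul_apply, MonoidAlgebra.coeff_sum, Finsupp.finsetSum_apply, Finset.mul_sum]
    have e2 : ∀ s, (-1 : ℤ) ^ C.deg s * ((Y * C.D) s s).coeff 1 =
        ∑ t, (-1 : ℤ) ^ C.deg s * (Y s t * C.D t s).coeff 1 := by
      intro s
      rw [Matrix.mul_apply, MonoidAlgebra.coeff_sum, Finsupp.finsetSum_apply, Finset.mul_sum]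
    rw [Finset.sum_congr rfl fun s _ => e1 s, Finset.sum_congr rfl fun s _ => e2 s,
      Finset.sum_comm, ← Finset.sum_neg_distrib]
    refine Finset.sum_congr rfl fun t _ => ?_
    rw [← Finset.sum_neg_distrib]
    refine Finset.sum_congr rfl fun s _ => ?_
    by_cases h : C.D s t = 0
    · rw [h]; simp
    · rw [C.deg_D s t h, coeff_one_mul_comm, pow_succ]
      ring
  have h3 := h2 X
  rw [h1]
  have h4 : ∀ s, (-1 : ℤ) ^ C.deg s * ((C.D * X + X * C.D) s s).coeff 1 =
      (-1 : ℤ) ^ C.deg s * ((C.D * X) s s).coeff 1 +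
      (-1 : ℤ) ^ C.deg s * ((X * C.D) s s).coeff 1 := by
    intro s
    rw [Matrix.add_apply, MonoidAlgebra.coeff_add, Finsupp.add_apply, mul_add]
  rw [Finset.sum_congr rfl fun s _ => h4 s, Finset.sum_add_distrib, h3]
  exact neg_add_cancel _

end mckean

end Pool.H3.L2
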