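import Pool.Agent.H3.L2.Defs

/-!
Tensor products of based complexes.
-/

set_option autoImplicit false

open scoped BigOperators Manifold ContDiff Topology
open MeasureTheory Filter

noncomputable section

namespace Pool.H3.L2

section lift

variable {R : Type} [Ring R]

/-- `A ⊗ 1`. -/
def lft {S T : Type} (U : Type) [DecidableEq U] (A : Matrix S T R) : Matrix (S × U) (T × U) R :=
  Matrix.of fun s t => if s.2 = t.2 then A s.1 t.1 else 0

/-- `1 ⊗ B`. -/
def rgt {S T : Type} (U : Type) [DecidableEq U] (B : Matrix S T R) : Matrix (U × S) (U × T) R :=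
  Matrix.of fun s t => if s.1 = t.1 then B s.2 t.2 else 0

variable {S T U V : Type}

theorem lft_mul [Fintype T] [Fintype V] [DecidableEq V] (A : Matrix S T R) (B : Matrix T U R) :
    lft V (A * B) = lft V A * lft V B := by
  ext ⟨s, v⟩ ⟨u, w⟩
  simp only [lft, Matrix.of_apply, Matrix.mul_apply, Fintype.sum_prod_type]
  by_cases h : v = w
  · subst h
    simp only [if_true]
    refine Finset.sum_congr rfl fun t _ => ?_
    rw [Finset.sum_eq_single v]
    · simp
    · intro x _ hx; simp [Ne.symm hx]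
    · simp
  · rw [if_neg h]
    symm
    refine Finset.sum_eq_zero fun t _ => Finset.sum_eq_zero fun x _ => ?_
    by_cases h1 : v = x
    · subst h1; simp [h]
    · simp [h1]

theorem rgt_mul [Fintype T] [Fintype V] [DecidableEq V] (A : Matrix S T R) (B : Matrix T U R) :
    rgt V (A * B) = rgt V A * rgt V B := by
  ext ⟨v, s⟩ ⟨w, u⟩
  simp only [rgt, Matrix.of_apply, Matrix.mul_apply, Fintype.sum_prod_type]
  by_cases h : v = w
  · subst h
    simp only [if_true]
    rw [Finset.sum_eq_single v]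
    · simp
    · intro x _ hx; simp [Ne.symm hx]
    · simp
  · rw [if_neg h]
    symm
    refine Finset.sum_eq_zero fun x _ => Finset.sum_eq_zero fun t _ => ?_
    by_cases h1 : v = x
    · subst h1; simp [h]
    · simp [h1]

theorem lft_one [DecidableEq S] [DecidableEq V] : lft V (1 : Matrix S S R) = 1 := by
  ext ⟨s, v⟩ ⟨u, w⟩
  simp only [lft, Matrix.of_apply, Matrix.one_apply, Prod.mk.injEq]
  by_cases h : v = w <;> by_cases h' : s = u <;> simp [h, h']

theorem rgt_one [DecidableEq S] [DecidableEq V] : rgt V (1 : Matrix S S R) = 1 := by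
  ext ⟨s, v⟩ ⟨u, w⟩
  simp only [rgt, Matrix.of_apply, Matrix.one_apply, Prod.mk.injEq]
  by_cases h : v = w <;> by_cases h' : s = u <;> simp [h, h']

theorem lft_add [DecidableEq V] (A B : Matrix S T R) : lft V (A + B) = lft V A + lft V B := by
  ext ⟨s, v⟩ ⟨u, w⟩
  simp only [lft, Matrix.of_apply, Matrix.add_apply]
  by_cases h : v = w <;> simp [h]

theorem rgt_add [DecidableEq V] (A B : Matrix S T R) : rgt V (A + B) = rgt V A + rgt V B := by
  ext ⟨s, v⟩ ⟨u, w⟩
  simp only [rgt, Matrix.of_apply, Matrix.add_apply]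
  by_cases h : s = u <;> simp [h]

theorem lft_zero [DecidableEq V] : lft V (0 : Matrix S T R) = 0 := by
  ext ⟨s, v⟩ ⟨u, w⟩
  simp [lft]

theorem rgt_zero [DecidableEq V] : rgt V (0 : Matrix S T R) = 0 := by
  ext ⟨s, v⟩ ⟨u, w⟩
  simp [rgt]

theorem lft_mul_rgt [Fintype T] [Fintype U] [DecidableEq T] [DecidableEq U]
    (A : Matrix S T R) (B : Matrix U V R) (s : S) (u : U) (t : T) (v : V) :
    (lft U A * rgt T B) (s, u) (t, v) = A s t * B u v := by
  simp only [lft, rgt, Matrix.of_apply, Matrix.mul_apply, Fintype.sum_prod_type]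
  rw [Finset.sum_eq_single t]
  · rw [Finset.sum_eq_single u]
    · simp
    · intro x _ hx; simp [Ne.symm hx]
    · simp
  · intro x _ hx
    refine Finset.sum_eq_zero fun y _ => ?_
    simp [hx]
  · simp

theorem rgt_mul_lft [Fintype S] [Fintype V] [DecidableEq S] [DecidableEq V]
    (A : Matrix S T R) (B : Matrix U V R) (s : S) (u : U) (t : T) (v : V) :
    (rgt S B * lft V A) (s, u) (t, v) = B u v * A s t := by
  simp only [lft, rgt, Matrix.of_apply, Matrix.mul_apply, Fintype.sum_prod_type]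
  rw [Finset.sum_eq_single s]
  · rw [Finset.sum_eq_single v]
    · simp
    · intro x _ hx; simp [hx]
    · simp
  · intro x _ hx
    refine Finset.sum_eq_zero fun y _ => ?_
    simp [Ne.symm hx]
  · simp

end lift

/-- The sign matrix `diag ((-1)^deg)`. -/
def sgnM (R : Type) [Ring R] {S : Type} [DecidableEq S] (d : S → ℕ) : Matrix S S R :=
  Matrix.diagonal fun s => (-1) ^ d s

theorem sgnM_sq (R : Type) [Ring R] {S : Type} [Fintype S] [DecidableEq S] (d : S → ℕ) :
    sgnM R d * sgnM R d = 1 := by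
  rw [sgnM, Matrix.diagonal_mul_diagonal, ← Matrix.diagonal_one]
  congr 1
  ext s
  rcases neg_one_pow_eq_or R (d s) with h1 | h1 <;> simp [h1]

theorem sgnM_mul {R : Type} [Ring R] {S : Type} [Fintype S] [DecidableEq S] (d : S → ℕ)
    (A : Matrix S S R) (hA : ∀ s t, A s t ≠ 0 → d s = d t + 1) :
    sgnM R d * A = -(A * sgnM R d) := by
  ext s t
  rw [sgnM, Matrix.diagonal_mul, Matrix.neg_apply, Matrix.mul_diagonal]
  by_cases h : A s t = 0
  · simp [h]
  · rw [hA s t h, pow_succ]
    rcases neg_one_pow_eq_or R (d t) with h1 | h1 <;> simp [h1]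

theorem lft_neg {R : Type} [Ring R] {S T V : Type} [DecidableEq V] (A : Matrix S T R) :
    lft V (-A) = -lft V A := by
  ext ⟨s, v⟩ ⟨u, w⟩
  simp only [lft, Matrix.of_apply, Matrix.neg_apply]
  split_ifs <;> simp

/-- Tensor product of complexes over rings `R1`, `R2` with values in a ring `R` receiving
commuting homomorphisms from `R1` and `R2`. -/
def BCx.otens {R1 R2 R : Type} [Ring R1] [Ring R2] [Ring R] (f : R1 →+* R) (g : R2 →+* R)
    (hfg : ∀ a b, f a * g b = g b * f a) (C1 : BCx R1) (C2 : BCx R2) : BCx R where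
  S := C1.S × C2.S
  deg := fun s => C1.deg s.1 + C2.deg s.2
  D := lft C2.S (C1.D.map f) + lft C2.S (sgnM R C1.deg) * rgt C1.S (C2.D.map g)
  deg_D := by
    rintro ⟨s, s'⟩ ⟨t, t'⟩ h
    simp only [Matrix.add_apply] at h
    by_cases h1 : lft C2.S (C1.D.map f) (s, s') (t, t') = 0
    · rw [h1, zero_add, lft_mul_rgt] at h
      have h2 : sgnM R C1.deg s t ≠ 0 := fun h0 => h (by rw [h0, zero_mul])
      have h3 : C2.D.map g s' t' ≠ 0 := fun h0 => h (by rw [h0, mul_zero])
      have h4 : s = t := by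
        by_contra hne
        exact h2 (Matrix.diagonal_apply_ne _ hne)
      have h5 : C2.D s' t' ≠ 0 := fun h0 => h3 (by simp [h0])
      have := C2.deg_D s' t' h5
      subst h4
      simp only
      omega
    · simp only [lft, Matrix.of_apply, ite_eq_right_iff, Matrix.map_apply] at h1
      push Not at h1
      obtain ⟨h2, h3⟩ := h1
      have h5 : C1.D s t ≠ 0 := fun h0 => h3 (by simp [h0])
      have := C1.deg_D s t h5
      subst h2
      simp only
      omega
  D_D := by
    have e1 : (C1.D.map f) * (C1.D.map f) = 0 := (C1.map f).D_D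
    have e2 : (C2.D.map g) * (C2.D.map g) = 0 := (C2.map g).D_D
    have e3 : sgnM R C1.deg * (C1.D.map f) = -((C1.D.map f) * sgnM R C1.deg) :=
      sgnM_mul _ _ (C1.map f).deg_D
    have e4 : ∀ A : Matrix C1.S C1.S R, (∀ s t, ∀ b, A s t * g b = g b * A s t) →
        rgt C1.S (C2.D.map g) * lft C2.S A = lft C2.S A * rgt C1.S (C2.D.map g) := by
      intro A hA
      ext ⟨s, s'⟩ ⟨t, t'⟩
      rw [rgt_mul_lft, lft_mul_rgt, Matrix.map_apply, hA]
    have e5 := e4 (C1.D.map f) (fun s t b => by rw [Matrix.map_apply, hfg])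
    have e6 := e4 (sgnM R C1.deg) (fun s t b => by
      rw [sgnM, Matrix.diagonal_apply]
      split_ifs
      · rcases neg_one_pow_eq_or R (C1.deg s) with h1 | h1 <;> simp [h1]
      · simp)
    rw [mul_add, add_mul, add_mul, ← lft_mul, e1, lft_zero, zero_add]
    have h1 : lft C2.S (sgnM R C1.deg) * rgt C1.S (C2.D.map g) * lft C2.S (C1.D.map f) =
        -(lft C2.S (C1.D.map f) * (lft C2.S (sgnM R C1.deg) * rgt C1.S (C2.D.map g))) := by
      rw [Matrix.mul_assoc, e5, ← Matrix.mul_assoc, ← lft_mul, e3, ← Matrix.mul_assoc, ← lft_mul,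
        lft_neg, Matrix.neg_mul]
    have h2 : lft C2.S (sgnM R C1.deg) * rgt C1.S (C2.D.map g) *
        (lft C2.S (sgnM R C1.deg) * rgt C1.S (C2.D.map g)) = 0 := by
      rw [Matrix.mul_assoc, ← Matrix.mul_assoc (rgt C1.S (C2.D.map g)), e6, Matrix.mul_assoc,
        ← rgt_mul, e2, rgt_zero, Matrix.mul_zero, Matrix.mul_zero]
    rw [h1, h2, add_zero]
    exact neg_add_cancel _

/-- Tensor product of integer complexes. -/
def BCx.tens (A B : BCx ℤ) : BCx ℤ :=
  BCx.otens (RingHom.id ℤ) (RingHom.id ℤ) (fun _ _ => mul_comm _ _) A B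

/-- The inclusions of group rings into the group ring of the product. -/
def inlR (Γ1 Γ2 : Type) [Group Γ1] [Group Γ2] : GR Γ1 →+* GR (Γ1 × Γ2) :=
  MonoidAlgebra.mapDomainRingHom ℤ (MonoidHom.inl Γ1 Γ2)

def inrR (Γ1 Γ2 : Type) [Group Γ1] [Group Γ2] : GR Γ2 →+* GR (Γ1 × Γ2) :=
  MonoidAlgebra.mapDomainRingHom ℤ (MonoidHom.inr Γ1 Γ2)

theorem inlR_comm {Γ1 Γ2 : Type} [Group Γ1] [Group Γ2] (a : GR Γ1) (b : GR Γ2) :
    inlR Γ1 Γ2 a * inrR Γ1 Γ2 b = inrR Γ1 Γ2 b * inlR Γ1 Γ2 a := by
  induction a using MonoidAlgebra.induction_linear with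
  | zero => simp
  | add x y hx hy => simp [add_mul, mul_add, hx, hy]
  | single g r =>
    induction b using MonoidAlgebra.induction_linear with
    | zero => simp
    | add x y hx hy => simp [add_mul, mul_add, hx, hy]
    | single h r' =>
      simp [inlR, inrR, MonoidAlgebra.mapDomainRingHom, MonoidAlgebra.mapDomain_single, mul_comm]

/-- Exterior tensor product of group ring complexes. -/
def BCx.xtens {Γ1 Γ2 : Type} [Group Γ1] [Group Γ2] (C1 : BCx (GR Γ1)) (C2 : BCx (GR Γ2)) :
    BCx (GR (Γ1 × Γ2)) :=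
  BCx.otens (inlR Γ1 Γ2) (inrR Γ1 Γ2) inlR_comm C1 C2

end Pool.H3.L2
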