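import Pool.Agent.H3.L2.Tensor

/-!
Euler characteristics: alternating sums of Betti numbers and of ranks; vanishing by duality in
odd dimension.
-/

set_option autoImplicit false

open scoped BigOperators Topology
open Matrix

noncomputable section

namespace Pool.H3.L2

section Field

variable {K : Type} [Field K] (C : BCx K)

/-- Chains of degree `k`. -/
def BCx.EVk (k : ℕ) : Submodule K (C.S → K) where
  carrier := {v | ∀ s, C.deg s ≠ k → v s = 0}
  add_mem' := by
    intro a b ha hb s hs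
    simp [ha s hs, hb s hs]
  zero_mem' := fun _ _ => rfl
  smul_mem' := by
    intro c a ha s hs
    simp [ha s hs]

def BCx.EVkEquiv (k : ℕ) : ({s : C.S // C.deg s = k} → K) ≃ₗ[K] C.EVk k where
  toFun v := ⟨fun u => if h : C.deg u = k then v ⟨u, h⟩ else 0, fun s hs => dif_neg hs⟩
  map_add' v w := by
    ext u
    by_cases h : C.deg u = k <;> simp [h]
  map_smul' c v := by
    ext u
    by_cases h : C.deg u = k <;> simp [h]
  invFun v := fun u => v.1 u.1
  left_inv v := by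
    funext u
    show (if h : C.deg u.1 = k then v ⟨u.1, h⟩ else 0) = v u
    rw [dif_pos u.2]
  right_inv v := by
    ext u
    show (if h : C.deg u = k then v.1 u else 0) = v.1 u
    by_cases h : C.deg u = k
    · rw [dif_pos h]
    · rw [dif_neg h, v.2 u h]

theorem BCx.finrank_EVk (k : ℕ) :
    Module.finrank K (C.EVk k) = Fintype.card {s : C.S // C.deg s = k} := by
  rw [← (C.EVkEquiv k).finrank_eq, Module.finrank_pi]

theorem BCx.vecMul_deg {k : ℕ} {w : C.S → K} (hw : ∀ s, C.deg s ≠ k + 1 → w s = 0) (t : C.S)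
    (ht : C.deg t ≠ k) : (w ᵥ* C.D) t = 0 := by
  refine Finset.sum_eq_zero fun s _ => ?_
  show w s * C.D s t = 0
  by_cases h : C.D s t = 0
  · rw [h, mul_zero]
  · have := C.deg_D s t h
    rw [hw s (by omega), zero_mul]

theorem BCx.Bk_le_ZkE (k : ℕ) : C.Bk k ≤ C.Zk k := by
  rintro v ⟨w, hw, rfl⟩
  refine ⟨fun s hs => C.vecMul_deg hw s hs, ?_⟩
  rw [Matrix.vecMul_vecMul, C.D_D, Matrix.vecMul_zero]

/-- The differential on chains of degree `k + 1`. -/
def BCx.Edk (k : ℕ) : C.EVk (k + 1) →ₗ[K] (C.S → K) :=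
  (Matrix.vecMulLinear C.D).comp (C.EVk (k + 1)).subtype

theorem BCx.range_Edk (k : ℕ) : LinearMap.range (C.Edk k) = C.Bk k := by
  ext v
  constructor
  · rintro ⟨w, rfl⟩
    exact ⟨w.1, w.2, rfl⟩
  · rintro ⟨w, hw, rfl⟩
    exact ⟨⟨w, hw⟩, rfl⟩

theorem BCx.ker_Edk (k : ℕ) :
    Module.finrank K (LinearMap.ker (C.Edk k)) = Module.finrank K (C.Zk (k + 1)) := by
  have h : (LinearMap.ker (C.Edk k)).map (C.EVk (k + 1)).subtype = C.Zk (k + 1) := by
    ext v
    constructor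
    · rintro ⟨w, hw, rfl⟩
      exact ⟨w.2, hw⟩
    · rintro ⟨hv, hv'⟩
      exact ⟨⟨v, hv⟩, hv', rfl⟩
  rw [← h]
  exact (Submodule.equivMapOfInjective _ (Submodule.injective_subtype _) _).finrank_eq

theorem BCx.card_succ (k : ℕ) : Fintype.card {s : C.S // C.deg s = k + 1} =
    Module.finrank K (C.Bk k) + Module.finrank K (C.Zk (k + 1)) := by
  rw [← C.finrank_EVk, ← LinearMap.finrank_range_add_finrank_ker (C.Edk k), C.range_Edk, C.ker_Edk]

theorem BCx.Zk_zero : C.Zk 0 = C.EVk 0 := by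
  ext v
  constructor
  · exact fun h => h.1
  · intro hv
    refine ⟨hv, ?_⟩
    funext t
    refine Finset.sum_eq_zero fun s _ => ?_
    show v s * C.D s t = 0
    by_cases h : C.D s t = 0
    · rw [h, mul_zero]
    · have := C.deg_D s t h
      rw [hv s (by omega), zero_mul]

theorem BCx.card_zero : Fintype.card {s : C.S // C.deg s = 0} = Module.finrank K (C.Zk 0) := by
  rw [← C.finrank_EVk, C.Zk_zero]

theorem BCx.finrank_HkE (k : ℕ) :
    Module.finrank K (C.Hk k) + Module.finrank K (C.Bk k) = Module.finrank K (C.Zk k) := by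
  rw [← (Submodule.submoduleOfEquivOfLe (C.Bk_le_ZkE k)).finrank_eq]
  exact Submodule.finrank_quotient_add_finrank _

theorem BCx.Bk_top {N : ℕ} (hN : ∀ s, C.deg s ≤ N) : Module.finrank K (C.Bk N) = 0 := by
  have : C.Bk N = ⊥ := by
    rw [eq_bot_iff]
    rintro v ⟨w, hw, rfl⟩
    have : w = 0 := by
      funext s
      have := hN s
      exact hw s (by omega)
    rw [this, Matrix.zero_vecMul]
    exact Submodule.zero_mem _
  rw [this]
  exact finrank_bot K _

theorem BCx.euler_aux (N : ℕ) : ∑ k ∈ Finset.range (N + 1),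
      (-1 : ℤ) ^ k * (Fintype.card {s : C.S // C.deg s = k} : ℤ) =
    ∑ k ∈ Finset.range (N + 1), (-1 : ℤ) ^ k * (Module.finrank K (C.Hk k) : ℤ) +
      (-1) ^ N * (Module.finrank K (C.Bk N) : ℤ) := by
  induction N with
  | zero =>
    have h := C.finrank_HkE 0
    rw [← C.card_zero] at h
    simp only [zero_add, Finset.range_one, Finset.sum_singleton, pow_zero, one_mul]
    exact_mod_cast h.symm
  | succ N ih =>
    rw [Finset.sum_range_succ, ih, Finset.sum_range_succ _ (N + 1)]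
    have h1 : (Module.finrank K (C.Hk (N + 1)) : ℤ) + (Module.finrank K (C.Bk (N + 1)) : ℤ) =
      (Module.finrank K (C.Zk (N + 1)) : ℤ) := by exact_mod_cast C.finrank_HkE (N + 1)
    have h2 : (Fintype.card {s : C.S // C.deg s = N + 1} : ℤ) =
      (Module.finrank K (C.Bk N) : ℤ) + (Module.finrank K (C.Zk (N + 1)) : ℤ) := by
      exact_mod_cast C.card_succ N
    rw [h2, ← h1, pow_succ]
    ring

theorem BCx.euler {N : ℕ} (hN : ∀ s, C.deg s ≤ N) : ∑ s : C.S, (-1 : ℤ) ^ C.deg s =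
    ∑ k ∈ Finset.range (N + 1), (-1 : ℤ) ^ k * (Module.finrank K (C.Hk k) : ℤ) := by
  have h := C.euler_aux N
  rw [C.Bk_top hN, Nat.cast_zero, mul_zero, add_zero] at h
  rw [← h, ← Finset.sum_fiberwise_of_maps_to (s := Finset.univ) (t := Finset.range (N + 1))
    (g := C.deg) (fun s _ => Finset.mem_range.mpr (Nat.lt_succ_of_le (hN s)))]
  refine Finset.sum_congr rfl fun k _ => ?_
  rw [Finset.sum_congr rfl (g := fun _ => (-1 : ℤ) ^ k)
    (fun s hs => by rw [(Finset.mem_filter.mp hs).2]), Finset.sum_const, Fintype.card_subtype,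
    nsmul_eq_mul, mul_comm]

end Field

theorem alt_zero {n : ℕ} (b : ℕ → ℕ) (hn : Odd n) (hb : ∀ i j, i + j = n → b i = b j) :
    ∑ k ∈ Finset.range (n + 1), (-1 : ℤ) ^ k * (b k : ℤ) = 0 := by
  have h := Finset.sum_range_reflect (fun k => (-1 : ℤ) ^ k * (b k : ℤ)) (n + 1)
  have h2 : ∑ k ∈ Finset.range (n + 1), (fun k => (-1 : ℤ) ^ k * (b k : ℤ)) (n + 1 - 1 - k) =
      -∑ k ∈ Finset.range (n + 1), (-1 : ℤ) ^ k * (b k : ℤ) := by
    rw [← Finset.sum_neg_distrib]
    refine Finset.sum_congr rfl fun k hk => ?_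
    have hk' : k ≤ n := Nat.lt_succ_iff.mp (Finset.mem_range.mp hk)
    simp only [Nat.add_sub_cancel]
    rw [hb (n - k) k (by omega)]
    have h3 : (-1 : ℤ) ^ (n - k) * (-1) ^ k = -1 := by
      rw [← pow_add, Nat.sub_add_cancel hk', hn.neg_one_pow]
    rcases neg_one_pow_eq_or ℤ k with h4 | h4
    · rw [h4] at h3 ⊢
      rw [mul_one] at h3
      rw [h3]
      ring
    · rw [h4] at h3 ⊢
      have : (-1 : ℤ) ^ (n - k) = 1 := by linarith
      rw [this]
      ring
  rw [h2] at h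
  linarith

theorem euler_zero {Γ : Type} [Group Γ] {C : BCx (GR Γ)} {c : ResChain Γ} {n : ℕ} (hn : Odd n)
    (hd : DualBetti ℝ C c n) : ∑ s : C.S, (-1 : ℤ) ^ C.deg s = 0 := by
  let _ : Fintype (Γ ⧸ c.N 0) := Fintype.ofFinite _
  obtain ⟨h1, h2⟩ := hd
  set B := (C.cover (c.N 0)).map (Int.castRingHom ℝ) with hB
  obtain ⟨M, hM⟩ : ∃ M, ∀ s : B.S, B.deg s ≤ M :=
    ⟨Finset.univ.sup B.deg, fun s => Finset.le_sup (Finset.mem_univ s)⟩
  have h3 := B.euler (N := n + M) (fun s => (hM s).trans (Nat.le_add_left _ _))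
  have h4 : ∑ k ∈ Finset.range (n + M + 1), (-1 : ℤ) ^ k * (Module.finrank ℝ (B.Hk k) : ℤ) =
      ∑ k ∈ Finset.range (n + 1), (-1 : ℤ) ^ k * (Module.finrank ℝ (B.Hk k) : ℤ) := by
    symm
    refine Finset.sum_subset (Finset.range_mono (by omega)) ?_
    intro k _ hk
    have hk' : n < k := by
      rw [Finset.mem_range] at hk
      omega
    have h5 : Module.finrank ℝ (B.Hk k) = 0 := h2 0 k hk'
    rw [h5]
    simp
  have h6 : ∑ k ∈ Finset.range (n + 1), (-1 : ℤ) ^ k * (Module.finrank ℝ (B.Hk k) : ℤ) = 0 :=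
    alt_zero (fun k => Module.finrank ℝ (B.Hk k)) hn (fun i j hij => h1 0 i j hij)
  rw [h4, h6] at h3
  have h7 : ∑ s : B.S, (-1 : ℤ) ^ B.deg s =
      (Fintype.card (Γ ⧸ c.N 0) : ℤ) * ∑ s : C.S, (-1 : ℤ) ^ C.deg s := by
    have : ∑ s : B.S, (-1 : ℤ) ^ B.deg s =
        ∑ s : C.S, ∑ q : Γ ⧸ c.N 0, (-1 : ℤ) ^ C.deg s :=
      Fintype.sum_prod_type (f := fun x : C.S × (Γ ⧸ c.N 0) => (-1 : ℤ) ^ C.deg x.1)
    rw [this]
    simp only [Finset.sum_const, Finset.card_univ, nsmul_eq_mul]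
    rw [← Finset.mul_sum]
  rw [h7] at h3
  rcases mul_eq_zero.mp h3 with h8 | h8
  · exact absurd h8 (by exact_mod_cast Fintype.card_ne_zero)
  · exact h8

end Pool.H3.L2
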