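import Pool.Agent.H3.L2.Mfd

/-!
The conclusion of Q1 for one manifold, and powers of manifolds.
-/

set_option autoImplicit false

open scoped BigOperators Topology
open MeasureTheory Filter

noncomputable section

namespace Pool.H3.L2

/-- The conclusion of Q1 for one manifold `M` (of dimension `2k+1` in the applications): for every
finite based free resolution `C` of `ℤ` over the group ring with vanishing `L2`-Betti numbers and
every residual chain, `log |tors H_k| / index` tends to `(-1)^k ρ`. -/
def Q1At {n : ℕ} (M : AsphericalMfd n) (k : ℕ) : Prop :=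
  ∀ C : BCx (GR M.Γ), C.IsRes →
    ∀ μ : ℕ → Measure ℝ, (∀ j, C.IsSpectral j (μ j)) → (∀ j, μ j {0} = 0) →
    ∀ c : ResChain M.Γ,
      Tendsto (fun i => Real.log ((C.cover (c.N i)).torsOrd k) / ((c.N i).index : ℝ)) atTop
        (𝓝 ((-1) ^ k * C.rho μ))

theorem Q1_iff : Q1 ↔ ∀ (k : ℕ) (M : AsphericalMfd (2 * k + 1)), Q1At M k := Iff.rfl

/-- The power `M^(r+1)`, of dimension `n + n r`. -/
def AsphericalMfd.pow {n : ℕ} (M : AsphericalMfd n) : (r : ℕ) → AsphericalMfd (n + n * r)
  | 0 => M
  | r + 1 => M.prod (AsphericalMfd.pow M r) (by ring)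

theorem AsphericalMfd.pow_succ {n : ℕ} (M : AsphericalMfd n) (r : ℕ) :
    M.pow (r + 1) = M.prod (M.pow r) (by ring) := rfl

end Pool.H3.L2
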