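import Pool.Agent.H3.L2.Iso
import Pool.Agent.H3.L2.Euler
import Pool.Agent.H3.L2.Stmt
import Pool.Agent.H29.L2.Conv
import Pool.Agent.H42.L2.Res
import Pool.Agent.H71.L2.LuckEq

/-!
Assembly: the question Q1 forces the vanishing of homology growth with real and mod p
coefficients in odd dimensions.
-/

set_option autoImplicit false

open scoped BigOperators Topology
open MeasureTheory Filter
open Pool.H29.L2

noncomputable section

namespace Pool.H3.L2

/-- A resolution and a residual chain for a closed aspherical manifold. -/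
structure Dat {n : ℕ} (M : AsphericalMfd n) where
  C : BCx (GR M.Γ)
  c : ResChain M.Γ
  res : C.IsRes

section

variable {n1 n2 n : ℕ} {M1 : AsphericalMfd n1} {M2 : AsphericalMfd n2} {M : AsphericalMfd n}

def Dat.prod (P : Dat M1) (Q : Dat M2) (h : n1 + n2 = n) : Dat (M1.prod M2 h) where
  C := P.C.xtens Q.C
  c := P.c.prod Q.c
  res := Pool.H42.L2.isRes_xtens P.res Q.res

/-- The complex of the `i`-th cover. -/
def Dat.cx (P : Dat M) (i : ℕ) : BCx ℤ := P.C.cover (P.c.N i)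

def Dat.idx (P : Dat M) (i : ℕ) : ℕ := (P.c.N i).index

theorem Dat.idx_pos (P : Dat M) (i : ℕ) : 0 < P.idx i :=
  Nat.pos_of_ne_zero (P.c.fin i).index_ne_zero

theorem Dat.idx_prod (P : Dat M1) (Q : Dat M2) (h : n1 + n2 = n) (i : ℕ) :
    (P.prod Q h).idx i = P.idx i * Q.idx i :=
  Subgroup.index_prod _ _

theorem Dat.ord_prod (P : Dat M1) (Q : Dat M2) (h : n1 + n2 = n) (i k : ℕ) :
    ((P.prod Q h).cx i).torsOrd k = ((P.cx i).tens (Q.cx i)).torsOrd k := by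
  have : ((P.c.N i).prod (Q.c.N i)).Normal := (P.c.prod Q.c).normal i
  have : ((P.c.N i).prod (Q.c.N i)).FiniteIndex := (P.c.prod Q.c).fin i
  exact Pool.H71.L2.torsOrd_cover_xtens P.C Q.C (P.c.N i) (Q.c.N i) k

theorem Dat.hasPT_prod (P : Dat M1) (Q : Dat M2) (h : n1 + n2 = n) {p i k t : ℕ}
    (ht : HasPT p ((P.cx i).tens (Q.cx i)) k t) : HasPT p ((P.prod Q h).cx i) k t := by
  have : ((P.c.N i).prod (Q.c.N i)).Normal := (P.c.prod Q.c).normal i
  have : ((P.c.N i).prod (Q.c.N i)).FiniteIndex := (P.c.prod Q.c).fin i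
  exact hasPT_cover_xtens P.C Q.C (P.c.N i) (Q.c.N i) ht

structure Dat.Good (P : Dat M) (μ : ℕ → Measure ℝ) : Prop where
  spec : ∀ j, P.C.IsSpectral j (μ j)
  zero : ∀ j, μ j {0} = 0

theorem Dat.Good.log {P : Dat M} {μ : ℕ → Measure ℝ} (h : P.Good μ) (j : ℕ) :
    IntegrableOn Real.log (Set.Ioi 0) (μ j) := (Pool.H71.L2.luck_eq (h.spec j) P.c).2

theorem Dat.Good.prod {P : Dat M1} {Q : Dat M2} {μ ν : ℕ → Measure ℝ}
    (h1 : ∀ j, P.C.IsSpectral j (μ j)) (h2 : Q.Good ν) (h : n1 + n2 = n) :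
    (P.prod Q h).Good (convFam μ ν) where
  spec := spectral_xtens h1 h2.spec
  zero := convFam_zero (fun k => isSpectral_on (h1 k)) (fun k => isSpectral_on (h2.spec k)) h2.zero

theorem Dat.rho_prod {P : Dat M1} {Q : Dat M2} {μ ν : ℕ → Measure ℝ}
    (h1 : ∀ j, P.C.IsSpectral j (μ j)) (h2 : Q.Good ν)
    (hχ : ∑ s : P.C.S, (-1 : ℤ) ^ P.C.deg s = 0) (h : n1 + n2 = n) :
    (P.prod Q h).C.rho (convFam μ ν) = 0 :=
  rho_xtens_zero h1 h2.spec hχ h2.zero h2.log

theorem Dat.q1 (P : Dat M) {k : ℕ} (hQ : Q1At M k) {μ : ℕ → Measure ℝ}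
    (h : P.Good μ) : Tendsto (fun i => Real.log ((P.cx i).torsOrd k) / (P.idx i : ℝ)) atTop
      (𝓝 ((-1) ^ k * P.C.rho μ)) :=
  hQ P.C P.res μ h.spec h.zero P.c

/-- Powers. -/
def Dat.pow (P : Dat M) : (r : ℕ) → Dat (M.pow r)
  | 0 => P
  | r + 1 => P.prod (Dat.pow P r) (by ring)

theorem Dat.pow_idx (P : Dat M) (r i : ℕ) : (P.pow r).idx i = (P.idx i) ^ (r + 1) := by
  induction r with
  | zero => simp [Dat.pow, AsphericalMfd.pow]
  | succ r ih =>
    refine (Dat.idx_prod P (P.pow r) _ i).trans ?_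
    rw [ih]
    ring

theorem Dat.pow_good (P : Dat M) {μ : ℕ → Measure ℝ} (h : P.Good μ) (r : ℕ) :
    ∃ ν, (P.pow r).Good ν := by
  induction r with
  | zero => exact ⟨μ, h⟩
  | succ r ih =>
    obtain ⟨ν, hν⟩ := ih
    exact ⟨convFam μ ν, Dat.Good.prod h.spec hν _⟩

theorem Dat.pow_q1 (P : Dat M) {μ : ℕ → Measure ℝ} (h : P.Good μ)
    (hχ : ∑ s : P.C.S, (-1 : ℤ) ^ P.C.deg s = 0) (r k : ℕ) (hQ : Q1At (M.pow (r + 1)) k) :
    Tendsto (fun i => Real.log (((P.pow (r + 1)).cx i).torsOrd k) / (P.idx i : ℝ) ^ (r + 2)) atTop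
      (𝓝 0) := by
  obtain ⟨ν, hν⟩ := P.pow_good h r
  have h1 : (P.pow (r + 1)).Good (convFam μ ν) := Dat.Good.prod h.spec hν _
  have h2 := (P.pow (r + 1)).q1 hQ h1
  have h3 : (P.pow (r + 1)).C.rho (convFam μ ν) = 0 := Dat.rho_prod h.spec hν hχ _
  rw [h3, mul_zero] at h2
  refine h2.congr fun i => ?_
  rw [P.pow_idx]
  push_cast
  rfl

/-- Torsion in even-indexed powers. -/
theorem Dat.pow_hasPT (P : Dat M) {p i a a' m t : ℕ} (haa : a + a' = 2 * m)
    (ha : HasPT p (P.cx i) a t) (ha' : HasPT p (P.cx i) a' t) (s : ℕ) :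
    ∀ e, e ≤ 2 * s → HasPT p ((P.pow (2 * s)).cx i) (a' + s * (2 * m) + e) (t ^ (2 * s + 1)) := by
  induction s with
  | zero =>
    intro e he
    have : e = 0 := by omega
    subst this
    simpa [Dat.pow, AsphericalMfd.pow] using ha'
  | succ s ih =>
    intro e he
    have key : ∀ e0 e1 e2 : ℕ, e0 ≤ 2 * s → e1 ≤ 1 → e2 ≤ 1 → e = e0 + e1 + e2 →
        HasPT p ((P.pow (2 * (s + 1))).cx i) (a' + (s + 1) * (2 * m) + e)
          (t ^ (2 * (s + 1) + 1)) := by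
      intro e0 e1 e2 h0 h1 h2 he'
      have g0 := ih e0 h0
      have g1 : HasPT p ((P.pow (2 * s + 1)).cx i) (a + (a' + s * (2 * m) + e0) + e1)
          (t * t ^ (2 * s + 1)) := by
        refine Dat.hasPT_prod P (P.pow (2 * s)) _ ?_
        rcases Nat.le_one_iff_eq_zero_or_eq_one.mp h1 with rfl | rfl
        · exact ha.low g0
        · exact ha.up g0
      have g2 : HasPT p ((P.pow (2 * s + 1 + 1)).cx i)
          (a' + (a + (a' + s * (2 * m) + e0) + e1) + e2) (t * (t * t ^ (2 * s + 1))) := by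
        refine Dat.hasPT_prod P (P.pow (2 * s + 1)) _ ?_
        rcases Nat.le_one_iff_eq_zero_or_eq_one.mp h2 with rfl | rfl
        · exact ha'.low g1
        · exact ha'.up g1
      have e3 : a' + (a + (a' + s * (2 * m) + e0) + e1) + e2 = a' + (s + 1) * (2 * m) + e := by
        rw [he', add_mul, one_mul, ← haa]
        ring
      have e4 : t * (t * t ^ (2 * s + 1)) = t ^ (2 * (s + 1) + 1) := by ring
      rw [e3, e4] at g2
      exact g2
    rcases Nat.lt_or_ge (2 * s) e with h | h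
    · rcases Nat.lt_or_ge (2 * s + 1) e with h' | h'
      · exact key (2 * s) 1 1 le_rfl le_rfl le_rfl (by omega)
      · exact key (2 * s) 1 0 le_rfl le_rfl (by omega) (by omega)
    · exact key e 0 0 h (by omega) (by omega) (by omega)

end

/-- Symmetry of the torsion ranks. -/
theorem symm_t {m : ℕ} {bp br t : ℕ → ℕ} (h0 : bp 0 = br 0 + t 0)
    (h1 : ∀ k, bp (k + 1) = br (k + 1) + t (k + 1) + t k)
    (hp : ∀ a b, a + b = 2 * m + 1 → bp a = bp b) (hr : ∀ a b, a + b = 2 * m + 1 → br a = br b)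
    (hp' : ∀ a, 2 * m + 1 < a → bp a = 0) :
    (∀ a, 2 * m < a → t a = 0) ∧ ∀ a b, a + b = 2 * m → t a = t b := by
  have h2 : ∀ a, 2 * m < a → t a = 0 := by
    intro a ha
    have := h1 a
    rw [hp' (a + 1) (by omega)] at this
    omega
  refine ⟨h2, ?_⟩
  intro a
  induction a with
  | zero =>
    intro b hb
    have hb' : b = 2 * m := by omega
    subst hb'
    have e1 := h1 (2 * m)
    have e2 := h2 (2 * m + 1) (by omega)
    have e3 := hp 0 (2 * m + 1) (by omega)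
    have e4 := hr 0 (2 * m + 1) (by omega)
    omega
  | succ a ih =>
    intro b hb
    have e0 := ih (b + 1) (by omega)
    have e1 := h1 a
    have e2 := h1 b
    have e3 := hp (a + 1) (b + 1) (by omega)
    have e4 := hr (a + 1) (b + 1) (by omega)
    omega

/-- Squeeze lemma. -/
theorem tendsto_zero_of_sq {a w z : ℕ → ℝ} {v : ℝ} (hv : 0 < v) (ha : ∀ i, 0 ≤ a i)
    (hw : Tendsto w atTop (𝓝 v)) (hz : Tendsto z atTop (𝓝 0))
    (h : ∀ i, a i ^ 2 * w i ≤ z i) : Tendsto a atTop (𝓝 0) := by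
  have h1 : Tendsto (fun i => z i / w i) atTop (𝓝 (0 / v)) := hz.div hw hv.ne'
  rw [zero_div] at h1
  have h2 : Tendsto (fun i => a i ^ 2) atTop (𝓝 0) := by
    refine squeeze_zero' (Eventually.of_forall fun i => sq_nonneg _) ?_ h1
    filter_upwards [hw.eventually (lt_mem_nhds hv)] with i hi
    rw [le_div_iff₀ hi]
    exact h i
  have h3 := (Real.continuous_sqrt.tendsto 0).comp h2
  rw [Real.sqrt_zero] at h3
  refine h3.congr fun i => ?_
  show Real.sqrt (a i ^ 2) = a i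
  exact Real.sqrt_sq (ha i)

section

variable {k m : ℕ} {MY : AsphericalMfd (2 * k + 1)} {MX : AsphericalMfd (2 * m + 1)}

/-- The torsion of the triple product. -/
theorem Dat.triple_ord (X : Dat MX) (Y : Dat MY) {n n' : ℕ} (h : 2 * m + 1 + (2 * k + 1) = n)
    (h' : 2 * m + 1 + n = n') (i l l' k : ℕ) :
    ((Y.cx i).torsOrd k) ^ ((X.cx i).betti ℝ l' * (X.cx i).betti ℝ l) ≤
      ((X.prod (X.prod Y h) h').cx i).torsOrd (l + (l' + k)) := by
  rw [Dat.ord_prod]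
  refine le_trans ?_ (torsOrd_tens_free _ _ l (l' + k))
  rw [pow_mul]
  refine Nat.pow_le_pow_left ?_ _
  rw [Dat.ord_prod]
  exact torsOrd_tens_free _ _ l' k

/-- Q1 gives positive torsion growth when the torsion is not zero. -/
theorem Dat.growth_pos (Y : Dat MY) (hQ : Q1At MY k) {μ : ℕ → Measure ℝ}
    (h : Y.Good μ) (hρ : Y.C.rho μ ≠ 0) : ∃ v : ℝ, 0 < v ∧
      Tendsto (fun i => Real.log ((Y.cx i).torsOrd k) / (Y.idx i : ℝ)) atTop (𝓝 v) := by
  refine ⟨(-1) ^ k * Y.C.rho μ, ?_, Y.q1 hQ h⟩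
  have h1 : 0 ≤ (-1) ^ k * Y.C.rho μ := by
    refine ge_of_tendsto' (Y.q1 hQ h) fun i => ?_
    exact div_nonneg (Real.log_natCast_nonneg _) (Nat.cast_nonneg _)
  refine lt_of_le_of_ne h1 (Ne.symm ?_)
  exact mul_ne_zero (pow_ne_zero _ (by norm_num)) hρ

/-- Q1 gives the vanishing of the growth of real Betti numbers in odd dimension. -/
theorem Dat.real_growth (Y : Dat MY) (hQY : Q1At MY k) {μ : ℕ → Measure ℝ}
    (h : Y.Good μ) (hρ : Y.C.rho μ ≠ 0) (X : Dat MX) {n n' : ℕ}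
    (hn : 2 * m + 1 + (2 * k + 1) = n) (hn' : 2 * m + 1 + n = n')
    (hQZ : Q1At (MX.prod (MX.prod MY hn) hn') (2 * m + 1 + k))
    (hX : DualBetti ℝ X.C X.c (2 * m + 1)) (l : ℕ) :
    Tendsto (fun i => ((X.cx i).betti ℝ l : ℝ) / (X.idx i : ℝ)) atTop (𝓝 0) := by
  rcases Nat.lt_or_ge (2 * m + 1) l with hl | hl
  · refine tendsto_const_nhds.congr fun i => ?_
    have : (X.cx i).betti ℝ l = 0 := hX.2 i l hl
    rw [this]
    simp
  obtain ⟨l', hl'⟩ : ∃ l', l + l' = 2 * m + 1 := ⟨2 * m + 1 - l, by omega⟩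
  obtain ⟨v, hv, hw⟩ := Y.growth_pos hQY h hρ
  choose ν hν using fun j => exists_spectral X.C X.c j
  have hχ : ∑ s : X.C.S, (-1 : ℤ) ^ X.C.deg s = 0 := euler_zero ⟨m, rfl⟩ hX
  have g1 : (X.prod Y hn).Good (convFam ν μ) := Dat.Good.prod hν h _
  have g2 : (X.prod (X.prod Y hn) hn').Good (convFam ν (convFam ν μ)) := Dat.Good.prod hν g1 _
  have g3 : (X.prod (X.prod Y hn) hn').C.rho (convFam ν (convFam ν μ)) = 0 :=
    Dat.rho_prod hν g1 hχ _
  have g4 := (X.prod (X.prod Y hn) hn').q1 hQZ g2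
  rw [g3, mul_zero] at g4
  have e0 : 2 * m + 1 + k = l + (l' + k) := by omega
  rw [e0] at g4
  refine tendsto_zero_of_sq hv (fun i => div_nonneg (Nat.cast_nonneg _) (Nat.cast_nonneg _)) hw
    g4 fun i => ?_
  have e1 : (X.cx i).betti ℝ l = (X.cx i).betti ℝ l' := hX.1 i l l' hl'
  have e2 := Dat.triple_ord X Y hn hn' i l l' k
  rw [← e1] at e2
  have e3 : ((X.prod (X.prod Y hn) hn').idx i : ℝ) = (X.idx i : ℝ) ^ 2 * (Y.idx i : ℝ) := by
    rw [Dat.idx_prod, Dat.idx_prod]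
    push_cast
    ring
  have e4 : (((X.cx i).betti ℝ l : ℝ) * ((X.cx i).betti ℝ l : ℝ)) *
      Real.log ((Y.cx i).torsOrd k) ≤
        Real.log (((X.prod (X.prod Y hn) hn').cx i).torsOrd (l + (l' + k))) := by
    have h5 : (((Y.cx i).torsOrd k : ℝ)) ^ ((X.cx i).betti ℝ l * (X.cx i).betti ℝ l) ≤
        (((X.prod (X.prod Y hn) hn').cx i).torsOrd (l + (l' + k)) : ℝ) := by exact_mod_cast e2
    have h6 : (0 : ℝ) < ((Y.cx i).torsOrd k : ℝ) := by exact_mod_cast torsOrd_pos _ _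
    have h7 := Real.log_le_log (pow_pos h6 _) h5
    rw [Real.log_pow] at h7
    push_cast at h7
    exact h7
  have hx : (0 : ℝ) < (X.idx i : ℝ) := by exact_mod_cast X.idx_pos i
  have hy : (0 : ℝ) < (Y.idx i : ℝ) := by exact_mod_cast Y.idx_pos i
  rw [e3]
  calc (((X.cx i).betti ℝ l : ℝ) / (X.idx i : ℝ)) ^ 2 *
        (Real.log ((Y.cx i).torsOrd k) / (Y.idx i : ℝ)) =
      ((((X.cx i).betti ℝ l : ℝ) * ((X.cx i).betti ℝ l : ℝ)) *
        Real.log ((Y.cx i).torsOrd k)) / ((X.idx i : ℝ) ^ 2 * (Y.idx i : ℝ)) := by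
        field_simp
    _ ≤ _ := by
        gcongr

/-- Q1 for the power `X^(2m+3)` excludes linear growth of torsion ranks in an acyclic manifold. -/
theorem Dat.no_rank_growth (X : Dat MX) (hQ : Q1At (MX.pow (2 * m + 2)) ((2 * m + 3) * m + (m + 1)))
    {μ : ℕ → Measure ℝ} (h : X.Good μ) (hχ : ∑ s : X.C.S, (-1 : ℤ) ^ X.C.deg s = 0)
    {p : ℕ} (hp : p.Prime) {a a' : ℕ} (haa : a + a' = 2 * m) (t : ℕ → ℕ)
    (ht : ∀ i, HasPT p (X.cx i) a (t i)) (ht' : ∀ i, HasPT p (X.cx i) a' (t i)) {ε : ℝ}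
    (hε : 0 < ε) (hf : ∃ᶠ i in atTop, ε * (X.idx i : ℝ) ≤ (t i : ℝ)) : False := by
  have h1 := X.pow_q1 h hχ (2 * m + 1) ((2 * m + 3) * m + (m + 1)) hQ
  have e1 : 2 * m + 1 + 2 = 2 * m + 3 := by omega
  rw [e1] at h1
  have h2 : 0 < ε ^ (2 * m + 3) * Real.log p :=
    mul_pos (pow_pos hε _) (Real.log_pos (by exact_mod_cast hp.one_lt))
  have h3 := h1.eventually (gt_mem_nhds h2)
  obtain ⟨i, hi, hi'⟩ := (hf.and_eventually h3).exists
  have h4 := X.pow_hasPT haa (ht i) (ht' i) (m + 1) (2 * m + 1 - a') (by omega)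
  have e2 : a' + (m + 1) * (2 * m) + (2 * m + 1 - a') = (2 * m + 3) * m + (m + 1) := by
    have : a' ≤ 2 * m := by omega
    have e3 : a' + (2 * m + 1 - a') = 2 * m + 1 := by omega
    calc a' + (m + 1) * (2 * m) + (2 * m + 1 - a') =
        (a' + (2 * m + 1 - a')) + (m + 1) * (2 * m) := by ring
      _ = _ := by rw [e3]; ring
  have e4 : 2 * (m + 1) + 1 = 2 * m + 3 := by ring
  rw [e2, e4] at h4
  have h5 := h4.le
  have hx : (0 : ℝ) < (X.idx i : ℝ) := by exact_mod_cast X.idx_pos i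
  have h6 : (t i : ℝ) ^ (2 * m + 3) * Real.log p ≤
      Real.log (((X.pow (2 * m + 1 + 1)).cx i).torsOrd ((2 * m + 3) * m + (m + 1))) := by
    have h7 : ((p : ℝ)) ^ ((t i) ^ (2 * m + 3)) ≤
        (((X.pow (2 * m + 1 + 1)).cx i).torsOrd ((2 * m + 3) * m + (m + 1)) : ℝ) := by
      exact_mod_cast h5
    have h8 : (0 : ℝ) < (p : ℝ) := by exact_mod_cast hp.pos
    have h9 := Real.log_le_log (pow_pos h8 _) h7
    rw [Real.log_pow] at h9
    push_cast at h9
    exact h9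
  have h7 : ε ^ (2 * m + 3) * Real.log p ≤
      Real.log (((X.pow (2 * m + 1 + 1)).cx i).torsOrd ((2 * m + 3) * m + (m + 1))) /
        (X.idx i : ℝ) ^ (2 * m + 3) := by
    rw [le_div_iff₀ (pow_pos hx _)]
    refine le_trans ?_ h6
    have h8 : (ε * (X.idx i : ℝ)) ^ (2 * m + 3) ≤ (t i : ℝ) ^ (2 * m + 3) :=
      pow_le_pow_left₀ (mul_nonneg hε.le hx.le) hi _
    rw [mul_pow] at h8
    have h9 : 0 ≤ Real.log p := (Real.log_pos (by exact_mod_cast hp.one_lt)).le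
    nlinarith [mul_le_mul_of_nonneg_right h8 h9]
  exact absurd hi' (not_lt.mpr h7)

/-- For an acyclic `X` with vanishing real growth, Q1 for the power `X^(2m+3)` gives the
vanishing of the growth of mod `p` Betti numbers. -/
theorem Dat.modp_growth (X : Dat MX)
    (hQ : Q1At (MX.pow (2 * m + 2)) ((2 * m + 3) * m + (m + 1)))
    (hX : DualBetti ℝ X.C X.c (2 * m + 1)) {ν : ℕ → Measure ℝ} (hg : X.Good ν)
    (hr : ∀ l, Tendsto (fun i => ((X.cx i).betti ℝ l : ℝ) / (X.idx i : ℝ)) atTop (𝓝 0))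
    (p : ℕ) [hp : Fact p.Prime]
    (hXp : DualBetti (ZMod p) X.C X.c (2 * m + 1)) (j : ℕ) :
    Tendsto (fun i => ((X.cx i).betti (ZMod p) j : ℝ) / (X.idx i : ℝ)) atTop (𝓝 0) := by
  have hχ : ∑ s : X.C.S, (-1 : ℤ) ^ X.C.deg s = 0 := euler_zero ⟨m, rfl⟩ hX
  choose tf h1 h2 h3 using fun i => exists_tf (X.cx i) p
  have hs := fun i => symm_t (m := m) (h2 i) (h3 i) (fun a b hab => hXp.1 i a b hab)
    (fun a b hab => hX.1 i a b hab) (fun a ha => hXp.2 i a ha)
  -- the growth of each torsion rank is zero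
  have ht : ∀ a, Tendsto (fun i => (tf i a : ℝ) / (X.idx i : ℝ)) atTop (𝓝 0) := by
    intro a
    rcases Nat.lt_or_ge (2 * m) a with ha | ha
    · refine tendsto_const_nhds.congr fun i => ?_
      rw [(hs i).1 a ha]
      simp
    obtain ⟨a', haa⟩ : ∃ a', a + a' = 2 * m := ⟨2 * m - a, by omega⟩
    rw [Metric.tendsto_atTop']
    by_contra hcon
    push Not at hcon
    obtain ⟨ε, hε, hf⟩ := hcon
    refine X.no_rank_growth hQ hg hχ hp.out haa (fun i => tf i a) (fun i => h1 i a)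
      (fun i => (hs i).2 a a' haa ▸ h1 i a') hε ?_
    rw [Filter.frequently_atTop]
    intro N
    obtain ⟨i, hi, hi'⟩ := hf N
    refine ⟨i, hi.le, ?_⟩
    have hx : (0 : ℝ) < (X.idx i : ℝ) := by exact_mod_cast X.idx_pos i
    rw [Real.dist_eq, sub_zero, abs_of_nonneg (div_nonneg (Nat.cast_nonneg _) hx.le),
      le_div_iff₀ hx] at hi'
    exact hi'
  cases j with
  | zero =>
    have h5 := (hr 0).add (ht 0)
    rw [add_zero] at h5
    refine h5.congr fun i => ?_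
    rw [h2 i]
    push_cast
    ring
  | succ j =>
    have h5 := ((hr (j + 1)).add (ht (j + 1))).add (ht j)
    rw [add_zero, add_zero] at h5
    refine h5.congr fun i => ?_
    rw [h3 i]
    push_cast
    ring

/-- Lueck approximation in the acyclic case. -/
theorem Dat.Good.betti {P : Dat MX} {μ : ℕ → Measure ℝ} (h : P.Good μ) (l : ℕ) :
    Tendsto (fun i => ((P.cx i).betti ℝ l : ℝ) / (P.idx i : ℝ)) atTop (𝓝 0) := by
  have h1 := (Pool.H71.L2.luck_eq (h.spec l) P.c).1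
  have h2 : (μ l).real {0} = 0 := by
    rw [Measure.real, h.zero l]
    rfl
  rw [h2] at h1
  exact h1

/-- The combined statement. -/
theorem Dat.modp_growth' (Y : Dat MY) (hQY : Q1At MY k) {μ : ℕ → Measure ℝ}
    (h : Y.Good μ) (hρ : Y.C.rho μ ≠ 0) (X : Dat MX) {n n' : ℕ}
    (hn : 2 * m + 1 + (2 * k + 1) = n) (hn' : 2 * m + 1 + n = n')
    (hQZ : Q1At (MX.prod (MX.prod MY hn) hn') (2 * m + 1 + k))
    (hQ : Q1At (MX.pow (2 * m + 2)) ((2 * m + 3) * m + (m + 1)))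
    (hX : DualBetti ℝ X.C X.c (2 * m + 1))
    (p : ℕ) [hp : Fact p.Prime]
    (hXp : DualBetti (ZMod p) X.C X.c (2 * m + 1)) (j : ℕ) :
    Tendsto (fun i => ((X.cx i).betti (ZMod p) j : ℝ) / (X.idx i : ℝ)) atTop (𝓝 0) := by
  have hr := fun l => Y.real_growth hQY h hρ X hn hn' hQZ hX l
  choose ν hν using fun l => exists_spectral X.C X.c l
  have hg : X.Good ν := ⟨hν, fun l => (luck (hν l) (hr l)).1⟩
  exact X.modp_growth hQ hX hg hr p hXp j

end

end Pool.H3.L2
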