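import Mathlib

/-!
Definitions for MP_98dedd_gt: finite based chain complexes over a ring, group ring complexes,
Laplacians, spectral measures (defined by moments), L2-torsion, quotient complexes, homology,
resolutions, closed aspherical manifolds (as free proper cocompact smooth actions on contractible
manifolds), residual chains and the statement Q1.
-/

set_option autoImplicit false

open scoped BigOperators Manifold ContDiff Topology
open MeasureTheory Filter

noncomputable section

namespace Pool.H3.L2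

/-- A finite based chain complex over a ring `R`: a finite set `S` of basis elements with degrees,
and a square matrix `D` (acting on row vectors `v` by `v ↦ v D`), lowering degree by one, with
`D D = 0`. -/
structure BCx (R : Type) [Ring R] where
  S : Type
  [fin : Fintype S]
  [dec : DecidableEq S]
  deg : S → ℕ
  D : Matrix S S R
  deg_D : ∀ s t, D s t ≠ 0 → deg s = deg t + 1
  D_D : D * D = 0

attribute [instance] BCx.fin BCx.dec

section Comm

variable {R : Type} [CommRing R]

/-- Cycles of degree `k`. -/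
def BCx.Zk (C : BCx R) (k : ℕ) : Submodule R (C.S → R) where
  carrier := {v | (∀ s, C.deg s ≠ k → v s = 0) ∧ Matrix.vecMul v C.D = 0}
  add_mem' := by
    rintro a b ⟨ha, ha'⟩ ⟨hb, hb'⟩
    refine ⟨fun s hs => by simp [ha s hs, hb s hs], ?_⟩
    rw [Matrix.add_vecMul, ha', hb', add_zero]
  zero_mem' := ⟨fun _ _ => rfl, Matrix.zero_vecMul _⟩
  smul_mem' := by
    rintro c a ⟨ha, ha'⟩
    refine ⟨fun s hs => by simp [ha s hs], ?_⟩
    rw [Matrix.smul_vecMul, ha', smul_zero]

/-- Boundaries of degree `k`. -/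
def BCx.Bk (C : BCx R) (k : ℕ) : Submodule R (C.S → R) where
  carrier := {v | ∃ w : C.S → R, (∀ s, C.deg s ≠ k + 1 → w s = 0) ∧ Matrix.vecMul w C.D = v}
  add_mem' := by
    rintro a b ⟨w, hw, rfl⟩ ⟨w', hw', rfl⟩
    exact ⟨w + w', fun s hs => by simp [hw s hs, hw' s hs], Matrix.add_vecMul _ _ _⟩
  zero_mem' := ⟨0, fun _ _ => rfl, Matrix.zero_vecMul _⟩
  smul_mem' := by
    rintro c a ⟨w, hw, rfl⟩
    exact ⟨c • w, fun s hs => by simp [hw s hs], Matrix.smul_vecMul _ _ _⟩

/-- Homology in degree `k`: cycles modulo boundaries. -/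
abbrev BCx.Hk (C : BCx R) (k : ℕ) : Type := ↥(C.Zk k) ⧸ (C.Bk k).submoduleOf (C.Zk k)

end Comm

/-- Change of coefficients. -/
def BCx.map {R R' : Type} [Ring R] [Ring R'] (f : R →+* R') (C : BCx R) : BCx R' where
  S := C.S
  deg := C.deg
  D := C.D.map f
  deg_D := fun s t h => C.deg_D s t (fun h0 => h (by simp [h0]))
  D_D := by rw [← Matrix.map_mul, C.D_D]; ext i j; simp

/-- Order of the torsion subgroup of `H_k(C; ℤ)`. -/
def BCx.torsOrd (C : BCx ℤ) (k : ℕ) : ℕ := Nat.card (Submodule.torsion ℤ (C.Hk k))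

/-- Betti number with coefficients in a field `K`: the dimension of `H_k(C ⊗ K)`. -/
def BCx.betti (K : Type) [Field K] (C : BCx ℤ) (k : ℕ) : ℕ :=
  Module.finrank K ((C.map (Int.castRingHom K)).Hk k)

/-- The integral group ring of `Γ`. -/
abbrev GR (Γ : Type) [Group Γ] : Type := MonoidAlgebra ℤ Γ

section GroupRing

variable {Γ : Type} [Group Γ]

/-- The standard involution of the group ring, `g ↦ g⁻¹`. -/
def adj (a : GR Γ) : GR Γ := MonoidAlgebra.mapDomain (fun g : Γ => g⁻¹) a

/-- The adjoint of a matrix over the group ring. -/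
def adjM {S T : Type} (A : Matrix S T (GR Γ)) : Matrix T S (GR Γ) := fun t s => adj (A s t)

/-- The (total) combinatorial Laplacian `D D* + D* D`. -/
def BCx.Lap (C : BCx (GR Γ)) : Matrix C.S C.S (GR Γ) := C.D * adjM C.D + adjM C.D * C.D

/-- The von Neumann trace (coefficient at `1`) of the degree `k` part of a matrix. -/
def BCx.trk (C : BCx (GR Γ)) (k : ℕ) (A : Matrix C.S C.S (GR Γ)) : ℤ :=
  ∑ s : C.S, if C.deg s = k then (A s s).coeff 1 else 0

/-- `μ` is the spectral measure of the Laplacian in degree `k`, with respect to the von Neumann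
trace: the compactly supported measure on `[0, ∞)` whose moments are `tr (Δ_k ^ n)`. -/
structure BCx.IsSpectral (C : BCx (GR Γ)) (k : ℕ) (μ : Measure ℝ) : Prop where
  finite : IsFiniteMeasure μ
  bounded : ∃ R : ℝ, μ (Set.Icc 0 R)ᶜ = 0
  moment : ∀ n : ℕ, ∫ x, x ^ n ∂μ = (C.trk k (C.Lap ^ n) : ℝ)

/-- The `L2`-torsion `-1/2 ∑ (-1)^j j log det Δ_j`, where `log det Δ_j` is the integral of `log`
over `(0, ∞)` against the spectral measure (Fuglede-Kadison determinant). -/
def BCx.rho (C : BCx (GR Γ)) (μ : ℕ → Measure ℝ) : ℝ :=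
  -(1 / 2) * ∑ j ∈ Finset.range (Finset.univ.sup C.deg + 1),
    (-1) ^ j * (j : ℝ) * ∫ x in Set.Ioi (0 : ℝ), Real.log x ∂(μ j)

/-- The augmentation of the group ring. -/
def aug (a : GR Γ) : ℤ := a.coeff.sum fun _ n => n

/-- `C` is a resolution of the trivial module `ℤ` over the group ring: there is an
augmentation `v ↦ ∑ aug (v s) e s` (with `e` supported in degree 0) making
`... → C_1 → C_0 → ℤ → 0` exact. -/
def BCx.IsRes (C : BCx (GR Γ)) : Prop :=
  ∃ e : C.S → ℤ,
    (∀ s, C.deg s ≠ 0 → e s = 0) ∧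
    (∀ s, ∑ t, aug (C.D s t) * e t = 0) ∧
    (∃ v : C.S → GR Γ, ∑ s, aug (v s) * e s = 1) ∧
    (∀ v : C.S → GR Γ, Matrix.vecMul v C.D = 0 → ∑ s, aug (v s) * e s = 0 →
      ∃ w : C.S → GR Γ, Matrix.vecMul w C.D = v)

/-- The regular representation: a matrix over the group ring of `Γ` gives, for a homomorphism
`φ` to a finite group `Q`, an integer matrix indexed by `S × Q`. -/
def regM {S T Q : Type} [Group Q] (φ : Γ →* Q) (A : Matrix S T (GR Γ)) :
    Matrix (S × Q) (T × Q) ℤ :=
  Matrix.of fun s t => (MonoidAlgebra.mapDomain φ (A s.1 t.1)).coeff (s.2⁻¹ * t.2)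

theorem coeff_mul_fintype {Q : Type} [Group Q] [Fintype Q] (a b : MonoidAlgebra ℤ Q) (m : Q) :
    (a * b).coeff m = ∑ z, a.coeff z * b.coeff (z⁻¹ * m) := by
  classical
  rw [MonoidAlgebra.coeff_mul, Finsupp.sum_fintype _ _ (by simp)]
  refine Finset.sum_congr rfl fun z _ => ?_
  rw [Finsupp.sum_fintype _ _ (by simp)]
  rw [Finset.sum_eq_single (z⁻¹ * m)]
  · simp
  · intro w _ hw
    rw [if_neg]
    rintro rfl
    exact hw (by group)
  · simp

theorem regM_mul {S T U Q : Type} [Fintype T] [Group Q] [Fintype Q]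
    (φ : Γ →* Q) (A : Matrix S T (GR Γ)) (B : Matrix T U (GR Γ)) :
    regM φ (A * B) = regM φ A * regM φ B := by
  ext ⟨s, x⟩ ⟨u, y⟩
  rw [Matrix.mul_apply, Fintype.sum_prod_type]
  simp only [regM, Matrix.of_apply, Matrix.mul_apply]
  have h : MonoidAlgebra.mapDomain φ (∑ j, A s j * B j u) =
      ∑ j, MonoidAlgebra.mapDomain φ (A s j) * MonoidAlgebra.mapDomain φ (B j u) := by
    have := map_sum (MonoidAlgebra.mapDomainRingHom ℤ φ) (fun j => A s j * B j u) Finset.univ
    simp only [map_mul] at this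
    exact this
  rw [h, MonoidAlgebra.coeff_sum, Finsupp.finsetSum_apply]
  refine Finset.sum_congr rfl fun t _ => ?_
  rw [coeff_mul_fintype]
  symm
  refine Fintype.sum_equiv (Equiv.mulLeft x⁻¹) _ _ fun z => ?_
  simp only [Equiv.coe_mulLeft]
  congr 2
  group

/-- The complex over `ℤ` obtained from a group ring complex by a homomorphism to a finite
group `Q`: `C ⊗_{ℤ Γ} ℤ Q`, with `ℤ`-basis `S × Q`. -/
def BCx.quot (C : BCx (GR Γ)) {Q : Type} [Group Q] [Fintype Q] [DecidableEq Q] (φ : Γ →* Q) :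
    BCx ℤ where
  S := C.S × Q
  deg := fun s => C.deg s.1
  D := regM φ C.D
  deg_D := by
    rintro ⟨s, x⟩ ⟨t, y⟩ h
    refine C.deg_D s t (fun h0 => h ?_)
    simp [regM, h0]
  D_D := by
    rw [← regM_mul, C.D_D]
    ext ⟨s, x⟩ ⟨t, y⟩
    simp [regM]

/-- The complex `C ⊗_{ℤ N} ℤ` computing the homology of the cover with group `N`,
a normal subgroup of finite index. -/
def BCx.cover (C : BCx (GR Γ)) (N : Subgroup Γ) [N.Normal] [N.FiniteIndex] : BCx ℤ :=
  letI : Fintype (Γ ⧸ N) := Fintype.ofFinite _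
  letI : DecidableEq (Γ ⧸ N) := Classical.decEq _
  C.quot (QuotientGroup.mk' N)

end GroupRing

/-- A residual chain `Γ = N 0 > N 1 > ...` of normal subgroups of finite index with trivial
intersection. -/
structure ResChain (Γ : Type) [Group Γ] where
  N : ℕ → Subgroup Γ
  normal : ∀ i, (N i).Normal
  fin : ∀ i, (N i).FiniteIndex
  zero : N 0 = ⊤
  anti : StrictAnti N
  inf : ⨅ i, N i = ⊥

attribute [instance] ResChain.normal ResChain.fin

/-- The universal cover of a closed aspherical smooth manifold of dimension `n` with the action of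
the fundamental group: a contractible smooth manifold `E` of dimension `n` with a free, properly
discontinuous, cocompact smooth action of a group `Γ`. The manifold is `M = E / Γ`. -/
structure AsphericalMfd (n : ℕ) where
  V : Type
  [normed : NormedAddCommGroup V]
  [space : NormedSpace ℝ V]
  [findim : FiniteDimensional ℝ V]
  finrank_V : Module.finrank ℝ V = n
  E : Type
  [top : TopologicalSpace E]
  [charted : ChartedSpace V E]
  [mfd : IsManifold 𝓘(ℝ, V) ∞ E]
  [t2 : T2Space E]
  [sc : SecondCountableTopology E]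
  [contr : ContractibleSpace E]
  Γ : Type
  [grp : Group Γ]
  [act : MulAction Γ E]
  smooth : ∀ g : Γ, ContMDiff 𝓘(ℝ, V) 𝓘(ℝ, V) ∞ (fun x : E => g • x)
  free : ∀ (g : Γ) (x : E), g • x = x → g = 1
  proper : ∀ K L : Set E, IsCompact K → IsCompact L →
    {g : Γ | ((fun x => g • x) '' K ∩ L).Nonempty}.Finite
  cocompact : ∃ K : Set E, IsCompact K ∧ ∀ x : E, ∃ g : Γ, g • x ∈ K

attribute [instance] AsphericalMfd.normed AsphericalMfd.space AsphericalMfd.findim
  AsphericalMfd.top AsphericalMfd.charted AsphericalMfd.mfd AsphericalMfd.t2 AsphericalMfd.sc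
  AsphericalMfd.contr AsphericalMfd.grp AsphericalMfd.act

/-- The question Q1. -/
def Q1 : Prop :=
  ∀ (k : ℕ) (M : AsphericalMfd (2 * k + 1)) (C : BCx (GR M.Γ)), C.IsRes →
    ∀ μ : ℕ → Measure ℝ, (∀ j, C.IsSpectral j (μ j)) → (∀ j, μ j {0} = 0) →
    ∀ c : ResChain M.Γ,
      Tendsto (fun i => Real.log ((C.cover (c.N i)).torsOrd k) / ((c.N i).index : ℝ)) atTop
        (𝓝 ((-1) ^ k * C.rho μ))

/-- Hypothesis on one manifold (true for closed hyperbolic 3-manifolds): a closed aspherical
manifold of odd dimension with residually finite group, all L2-Betti numbers zero, of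
determinant class, with nonzero L2-torsion. -/
def ExistsTorsion : Prop :=
  ∃ (k : ℕ) (M : AsphericalMfd (2 * k + 1)) (C : BCx (GR M.Γ)) (μ : ℕ → Measure ℝ),
    C.IsRes ∧ (∀ j, C.IsSpectral j (μ j)) ∧ (∀ j, μ j {0} = 0) ∧
    (∀ j, IntegrableOn Real.log (Set.Ioi 0) (μ j)) ∧ C.rho μ ≠ 0 ∧ Nonempty (ResChain M.Γ)

/-- Poincare duality and vanishing above the dimension for the Betti numbers of the covers. -/
def DualBetti (K : Type) [Field K] {Γ : Type} [Group Γ] (C : BCx (GR Γ)) (c : ResChain Γ)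
    (n : ℕ) : Prop :=
  (∀ i a b, a + b = n → (C.cover (c.N i)).betti K a = (C.cover (c.N i)).betti K b) ∧
  (∀ i a, n < a → (C.cover (c.N i)).betti K a = 0)

/-- Hypothesis (Avramidi-Okun-Schreve): a closed orientable aspherical manifold of odd dimension
with linear growth of `F_p`-homology along a residual chain. -/
def ExistsFpGrowth : Prop :=
  ∃ (m : ℕ) (M : AsphericalMfd (2 * m + 1)) (C : BCx (GR M.Γ)) (c : ResChain M.Γ) (p : ℕ)
    (_ : Fact p.Prime) (j : ℕ) (ε : ℝ),
    C.IsRes ∧ DualBetti ℝ C c (2 * m + 1) ∧ DualBetti (ZMod p) C c (2 * m + 1) ∧ 0 < ε ∧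
    ∃ᶠ i in atTop, ε * ((c.N i).index : ℝ) ≤ ((C.cover (c.N i)).betti (ZMod p) j : ℝ)

end Pool.H3.L2
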