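import Pool.Agent.H3.L2.Tensor

/-!
Elementary systems in integer complexes: split embeddings of elementary complexes
`ℤ → ℤ` (multiplication by q), described by vectors and functionals, and their tensor products.
-/

set_option autoImplicit false
set_option linter.unusedVariables false

open scoped BigOperators Topology
open Matrix

noncomputable section

namespace Pool.H3.L2

/-- A split system of elementary complexes `ℤ x_t → ℤ y_t`, `x_t ↦ q_t y_t`, in degrees `k+1, k`. -/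
structure ESys (A : BCx ℤ) (k : ℕ) (T : Type) (q : T → ℤ) where
  x : T → A.S → ℤ
  y : T → A.S → ℤ
  ξ : T → A.S → ℤ
  η : T → A.S → ℤ
  hx : ∀ t s, A.deg s ≠ k + 1 → x t s = 0
  hy : ∀ t s, A.deg s ≠ k → y t s = 0
  hξ : ∀ t s, A.deg s ≠ k + 1 → ξ t s = 0
  hη : ∀ t s, A.deg s ≠ k → η t s = 0
  xD : ∀ t, x t ᵥ* A.D = q t • y t
  yD : ∀ t, y t ᵥ* A.D = 0
  ξx : ∀ t, x t ⬝ᵥ ξ t = 1
  ξx' : ∀ t t', t ≠ t' → x t' ⬝ᵥ ξ t = 0
  ηy : ∀ t, y t ⬝ᵥ η t = 1
  ηy' : ∀ t t', t ≠ t' → y t' ⬝ᵥ η t = 0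
  Dη : ∀ t, A.D *ᵥ η t = q t • ξ t
  Dξ : ∀ t, A.D *ᵥ ξ t = 0

/-- A split system of cycles `z_t` in degree `k` with functionals killing boundaries. -/
structure FSys (A : BCx ℤ) (k : ℕ) (T : Type) where
  z : T → A.S → ℤ
  ζ : T → A.S → ℤ
  hz : ∀ t s, A.deg s ≠ k → z t s = 0
  hζ : ∀ t s, A.deg s ≠ k → ζ t s = 0
  zD : ∀ t, z t ᵥ* A.D = 0
  ζz : ∀ t, z t ⬝ᵥ ζ t = 1
  ζz' : ∀ t t', t ≠ t' → z t' ⬝ᵥ ζ t = 0
  Dζ : ∀ t, A.D *ᵥ ζ t = 0

/-- Restriction of a system along an injective map of index types. -/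
def ESys.comap {A : BCx ℤ} {k : ℕ} {T T' : Type} {q : T → ℤ} (E : ESys A k T q) (f : T' → T)
    (hf : Function.Injective f) : ESys A k T' (fun t => q (f t)) where
  x := fun t => E.x (f t)
  y := fun t => E.y (f t)
  ξ := fun t => E.ξ (f t)
  η := fun t => E.η (f t)
  hx := fun t s h => E.hx _ s h
  hy := fun t s h => E.hy _ s h
  hξ := fun t s h => E.hξ _ s h
  hη := fun t s h => E.hη _ s h
  xD := fun t => E.xD _
  yD := fun t => E.yD _
  ξx := fun t => E.ξx _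
  ξx' := fun t t' h => E.ξx' _ _ (fun h' => h (hf h'))
  ηy := fun t => E.ηy _
  ηy' := fun t t' h => E.ηy' _ _ (fun h' => h (hf h'))
  Dη := fun t => E.Dη _
  Dξ := fun t => E.Dξ _

theorem tens_D_apply (A B : BCx ℤ) (s t : A.S) (s' t' : B.S) :
    (A.tens B).D (s, s') (t, t') = (if s' = t' then A.D s t else 0) +
      (if s = t then (-1) ^ A.deg s * B.D s' t' else 0) := by
  have h : (A.tens B).D (s, s') (t, t') = lft B.S (A.D.map (RingHom.id ℤ)) (s, s') (t, t') +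
      (lft B.S (sgnM ℤ A.deg) * rgt A.S (B.D.map (RingHom.id ℤ)) :
        Matrix (A.S × B.S) (A.S × B.S) ℤ) (s, s') (t, t') := rfl
  rw [h, lft_mul_rgt, sgnM, Matrix.diagonal_apply]
  simp only [lft, Matrix.of_apply, Matrix.map_apply, RingHom.id_apply]
  congr 1
  split_ifs <;> simp

/-- Kronecker product of vectors. -/
def kr {A B : BCx ℤ} (u : A.S → ℤ) (v : B.S → ℤ) : (A.tens B).S → ℤ := fun s => u s.1 * v s.2

theorem kr_apply {A B : BCx ℤ} (u : A.S → ℤ) (v : B.S → ℤ) (s : A.S) (t : B.S) :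
    (kr u v : (A.tens B).S → ℤ) (s, t) = u s * v t := rfl

theorem kr_dot {A B : BCx ℤ} (u φ : A.S → ℤ) (v ψ : B.S → ℤ) :
    (kr u v : (A.tens B).S → ℤ) ⬝ᵥ kr φ ψ = (u ⬝ᵥ φ) * (v ⬝ᵥ ψ) := by
  have h : (kr u v : (A.tens B).S → ℤ) ⬝ᵥ kr φ ψ =
      ∑ s : A.S, ∑ t : B.S, (u s * v t) * (φ s * ψ t) :=
    Fintype.sum_prod_type (f := fun x : A.S × B.S => (u x.1 * v x.2) * (φ x.1 * ψ x.2))
  rw [h]
  simp only [dotProduct, Finset.sum_mul_sum]
  refine Finset.sum_congr rfl fun s _ => Finset.sum_congr rfl fun t _ => ?_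
  ring

theorem kr_vecMul (A B : BCx ℤ) (i : ℕ) (u : A.S → ℤ) (hu : ∀ s, A.deg s ≠ i → u s = 0)
    (v : B.S → ℤ) : (kr u v : (A.tens B).S → ℤ) ᵥ* (A.tens B).D =
      kr (u ᵥ* A.D) v + (-1 : ℤ) ^ i • kr u (v ᵥ* B.D) := by
  funext x
  obtain ⟨t, t'⟩ := x
  have h : ((kr u v : (A.tens B).S → ℤ) ᵥ* (A.tens B).D) (t, t') =
      ∑ s : A.S, ∑ s' : B.S, u s * v s' * ((if s' = t' then A.D s t else 0) +
      (if s = t then (-1) ^ A.deg s * B.D s' t' else 0)) := by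
    refine (Fintype.sum_prod_type (f := fun x : A.S × B.S => u x.1 * v x.2 *
      (A.tens B).D x (t, t'))).trans ?_
    refine Finset.sum_congr rfl fun s _ => Finset.sum_congr rfl fun s' _ => ?_
    rw [tens_D_apply]
  have h2 : (kr (u ᵥ* A.D) v + (-1 : ℤ) ^ i • kr u (v ᵥ* B.D) : (A.tens B).S → ℤ) (t, t') =
      (∑ s, u s * A.D s t) * v t' + (-1) ^ i * (u t * ∑ s', v s' * B.D s' t') := rfl
  rw [h, h2]
  simp only [mul_add, Finset.sum_add_distrib]
  congr 1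
  · rw [Finset.sum_mul]
    refine Finset.sum_congr rfl fun s _ => ?_
    rw [Finset.sum_eq_single t']
    · simp; ring
    · intro b _ hb; simp [hb]
    · simp
  · rw [Finset.sum_eq_single t]
    · simp only [if_true]
      rw [Finset.mul_sum, Finset.mul_sum]
      refine Finset.sum_congr rfl fun s' _ => ?_
      by_cases ht : A.deg t = i
      · rw [ht]; ring
      · rw [hu t ht]; simp
    · intro b _ hb; simp [hb]
    · simp

theorem mulVec_kr (A B : BCx ℤ) (i : ℕ) (φ : A.S → ℤ) (hφ : ∀ s, A.deg s ≠ i → φ s = 0)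
    (ψ : B.S → ℤ) : (A.tens B).D *ᵥ (kr φ ψ : (A.tens B).S → ℤ) =
      kr (A.D *ᵥ φ) ψ + (-1 : ℤ) ^ i • kr φ (B.D *ᵥ ψ) := by
  funext x
  obtain ⟨s, s'⟩ := x
  have h : ((A.tens B).D *ᵥ (kr φ ψ : (A.tens B).S → ℤ)) (s, s') =
      ∑ t : A.S, ∑ t' : B.S, ((if s' = t' then A.D s t else 0) +
      (if s = t then (-1) ^ A.deg s * B.D s' t' else 0)) * (φ t * ψ t') := by
    refine (Fintype.sum_prod_type (f := fun x : A.S × B.S => (A.tens B).D (s, s') x *
      (φ x.1 * ψ x.2))).trans ?_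
    refine Finset.sum_congr rfl fun t _ => Finset.sum_congr rfl fun t' _ => ?_
    rw [tens_D_apply]
  have h2 : (kr (A.D *ᵥ φ) ψ + (-1 : ℤ) ^ i • kr φ (B.D *ᵥ ψ) : (A.tens B).S → ℤ) (s, s') =
      (∑ t, A.D s t * φ t) * ψ s' + (-1) ^ i * (φ s * ∑ t', B.D s' t' * ψ t') := rfl
  rw [h, h2]
  simp only [add_mul, Finset.sum_add_distrib]
  congr 1
  · rw [Finset.sum_mul]
    refine Finset.sum_congr rfl fun t _ => ?_
    rw [Finset.sum_eq_single s']
    · simp; ring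
    · intro b _ hb; simp [Ne.symm hb]
    · simp
  · rw [Finset.sum_eq_single s]
    · simp only [if_true]
      rw [Finset.mul_sum, Finset.mul_sum]
      refine Finset.sum_congr rfl fun t' _ => ?_
      by_cases ht : A.deg s = i
      · rw [ht]; ring
      · rw [hφ s ht]; simp
    · intro b _ hb; simp [Ne.symm hb]
    · simp

theorem negpow_sq (i : ℕ) : ((-1 : ℤ) ^ i) * (-1) ^ i = 1 := by
  rcases neg_one_pow_eq_or ℤ i with h | h <;> simp [h]

section kr

variable {A B : BCx ℤ}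

theorem kr_smul_left (c : ℤ) (u : A.S → ℤ) (v : B.S → ℤ) :
    kr (c • u) v = c • kr u v := by
  funext x; simp [kr, mul_assoc]

theorem kr_smul_right (c : ℤ) (u : A.S → ℤ) (v : B.S → ℤ) :
    kr u (c • v) = c • kr u v := by
  funext x; simp [kr]; ring

theorem kr_zero_left (v : B.S → ℤ) : kr (0 : A.S → ℤ) v = 0 := by
  funext x; simp [kr]

theorem kr_zero_right (u : A.S → ℤ) : kr u (0 : B.S → ℤ) = 0 := by
  funext x; simp [kr]

theorem kr_deg {i j : ℕ} (u : A.S → ℤ) (hu : ∀ s, A.deg s ≠ i → u s = 0)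
    (v : B.S → ℤ) (hv : ∀ s, B.deg s ≠ j → v s = 0) (n : ℕ) (hn : i + j = n) :
    ∀ s : (A.tens B).S, (A.tens B).deg s ≠ n → kr u v s = 0 := by
  rintro ⟨s, s'⟩ h
  have h' : A.deg s + B.deg s' ≠ n := h
  rw [kr_apply]
  by_cases h1 : A.deg s = i
  · have h2 : B.deg s' ≠ j := by
      intro h2; apply h'; rw [h1, h2, hn]
    rw [hv s' h2, mul_zero]
  · rw [hu s h1, zero_mul]

/-- Free part times elementary part. -/
def FSys.tens {l k : ℕ} {U T : Type} {q : T → ℤ} (F : FSys A l U)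
    (E : ESys B k T q) : ESys (A.tens B) (l + k) (U × T) (fun t => q t.2) where
  x := fun t => kr (F.z t.1) (E.x t.2)
  y := fun t => (-1 : ℤ) ^ l • kr (F.z t.1) (E.y t.2)
  ξ := fun t => kr (F.ζ t.1) (E.ξ t.2)
  η := fun t => (-1 : ℤ) ^ l • kr (F.ζ t.1) (E.η t.2)
  hx := fun t => kr_deg _ (F.hz t.1) _ (E.hx t.2) _ (by ring)
  hy := fun t s h => by
    rw [Pi.smul_apply, kr_deg _ (F.hz t.1) _ (E.hy t.2) _ rfl s h, smul_zero]
  hξ := fun t => kr_deg _ (F.hζ t.1) _ (E.hξ t.2) _ (by ring)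
  hη := fun t s h => by
    rw [Pi.smul_apply, kr_deg _ (F.hζ t.1) _ (E.hη t.2) _ rfl s h, smul_zero]
  xD := fun t => by
    rw [kr_vecMul A B l _ (F.hz t.1), F.zD, kr_zero_left, zero_add, E.xD, kr_smul_right,
      smul_comm]
  yD := fun t => by
    rw [smul_vecMul, kr_vecMul A B l _ (F.hz t.1), F.zD, kr_zero_left, zero_add, E.yD,
      kr_zero_right, smul_zero, smul_zero]
  ξx := fun t => by rw [kr_dot, F.ζz, E.ξx, one_mul]
  ξx' := fun t t' h => by
    rw [kr_dot]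
    by_cases h1 : t.1 = t'.1
    · rw [E.ξx' _ _ (fun h2 => h (Prod.ext h1 h2)), mul_zero]
    · rw [F.ζz' _ _ h1, zero_mul]
  ηy := fun t => by
    rw [smul_dotProduct, dotProduct_smul, kr_dot, F.ζz, E.ηy, smul_smul, negpow_sq, one_mul,
      one_smul]
  ηy' := fun t t' h => by
    rw [smul_dotProduct, dotProduct_smul, kr_dot]
    by_cases h1 : t.1 = t'.1
    · rw [E.ηy' _ _ (fun h2 => h (Prod.ext h1 h2)), mul_zero, smul_zero, smul_zero]
    · rw [F.ζz' _ _ h1, zero_mul, smul_zero, smul_zero]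
  Dη := fun t => by
    rw [mulVec_smul, mulVec_kr A B l _ (F.hζ t.1), F.Dζ, kr_zero_left, zero_add, E.Dη,
      kr_smul_right, smul_smul, negpow_sq, one_smul]
  Dξ := fun t => by
    rw [mulVec_kr A B l _ (F.hζ t.1), F.Dζ, kr_zero_left, zero_add, E.Dξ, kr_zero_right,
      smul_zero]

theorem dot_deg {A : BCx ℤ} {i j : ℕ} (hij : i ≠ j) (u v : A.S → ℤ)
    (hu : ∀ s, A.deg s ≠ i → u s = 0) (hv : ∀ s, A.deg s ≠ j → v s = 0) : u ⬝ᵥ v = 0 := by
  refine Finset.sum_eq_zero fun s _ => ?_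
  by_cases h : A.deg s = i
  · rw [hv s (by rw [h]; exact hij), mul_zero]
  · rw [hu s h, zero_mul]

/-- Product of elementary systems, lower part (degrees `i+j+1, i+j`). Here `q = g a`,
`q' = g a'`, `u a + v a' = 1`. -/
def ESys.tensLow {i j : ℕ} {T U : Type} {q : T → ℤ} {q' : U → ℤ} (E : ESys A i T q)
    (F : ESys B j U q') (g a a' u v : T × U → ℤ) (hg : ∀ t, q t.1 = g t * a t)
    (hg' : ∀ t, q' t.2 = g t * a' t) (huv : ∀ t, u t * a t + v t * a' t = 1) :
    ESys (A.tens B) (i + j) (T × U) g where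
  x := fun t => u t • kr (E.x t.1) (F.y t.2) + ((-1 : ℤ) ^ i * v t) • kr (E.y t.1) (F.x t.2)
  y := fun t => kr (E.y t.1) (F.y t.2)
  ξ := fun t => a t • kr (E.ξ t.1) (F.η t.2) + ((-1 : ℤ) ^ i * a' t) • kr (E.η t.1) (F.ξ t.2)
  η := fun t => kr (E.η t.1) (F.η t.2)
  hx := fun t s h => by
    rw [Pi.add_apply, Pi.smul_apply, Pi.smul_apply,
      kr_deg _ (E.hx t.1) _ (F.hy t.2) (i + j + 1) (by ring) s h,
      kr_deg _ (E.hy t.1) _ (F.hx t.2) (i + j + 1) (by ring) s h]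
    simp
  hy := fun t s h => kr_deg _ (E.hy t.1) _ (F.hy t.2) _ rfl s h
  hξ := fun t s h => by
    rw [Pi.add_apply, Pi.smul_apply, Pi.smul_apply,
      kr_deg _ (E.hξ t.1) _ (F.hη t.2) (i + j + 1) (by ring) s h,
      kr_deg _ (E.hη t.1) _ (F.hξ t.2) (i + j + 1) (by ring) s h]
    simp
  hη := fun t s h => kr_deg _ (E.hη t.1) _ (F.hη t.2) _ rfl s h
  xD := fun t => by
    rw [add_vecMul, smul_vecMul, smul_vecMul, kr_vecMul A B (i + 1) _ (E.hx t.1),
      kr_vecMul A B i _ (E.hy t.1), E.xD, F.yD, E.yD, F.xD, kr_zero_right, kr_zero_left,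
      kr_smul_left, kr_smul_right, smul_zero, add_zero, zero_add, smul_smul, smul_smul, smul_smul,
      ← add_smul]
    congr 1
    have h1 := hg t
    have h2 := hg' t
    have h3 := huv t
    have h4 := negpow_sq i
    linear_combination u t * h1 + (v t * ((-1) ^ i * (-1) ^ i)) * h2 + g t * h3 +
      (v t * g t * a' t) * h4
  yD := fun t => by
    rw [kr_vecMul A B i _ (E.hy t.1), E.yD, F.yD, kr_zero_right, kr_zero_left, smul_zero, add_zero]
  ξx := fun t => by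
    rw [add_dotProduct, dotProduct_add, dotProduct_add]
    simp only [smul_dotProduct, dotProduct_smul, kr_dot]
    rw [E.ξx, F.ηy, E.ηy, F.ξx, dot_deg (by omega) _ _ (E.hx t.1) (E.hη t.1),
      dot_deg (by omega) _ _ (E.hy t.1) (E.hξ t.1)]
    simp only [smul_eq_mul, mul_one, mul_zero, zero_mul, add_zero, zero_add]
    have h3 := huv t
    have h4 := negpow_sq i
    linear_combination h3 + (v t * a' t) * h4
  ξx' := fun t t' h => by
    rw [add_dotProduct, dotProduct_add, dotProduct_add]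
    simp only [smul_dotProduct, dotProduct_smul, kr_dot]
    rw [dot_deg (by omega) _ _ (E.hx t'.1) (E.hη t.1),
      dot_deg (by omega) _ _ (E.hy t'.1) (E.hξ t.1)]
    by_cases h1 : t.1 = t'.1
    · have h2 : t.2 ≠ t'.2 := fun h2 => h (Prod.ext h1 h2)
      rw [F.ηy' _ _ h2, F.ξx' _ _ h2]
      simp
    · rw [E.ξx' _ _ h1, E.ηy' _ _ h1]
      simp
  ηy := fun t => by rw [kr_dot, E.ηy, F.ηy, one_mul]
  ηy' := fun t t' h => by
    rw [kr_dot]
    by_cases h1 : t.1 = t'.1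
    · rw [F.ηy' _ _ (fun h2 => h (Prod.ext h1 h2)), mul_zero]
    · rw [E.ηy' _ _ h1, zero_mul]
  Dη := fun t => by
    rw [mulVec_kr A B i _ (E.hη t.1), E.Dη, F.Dη, kr_smul_left, kr_smul_right, hg, hg', smul_add,
      smul_smul, smul_smul, smul_smul]
    congr 2
    ring
  Dξ := fun t => by
    rw [mulVec_add, mulVec_smul, mulVec_smul, mulVec_kr A B (i + 1) _ (E.hξ t.1),
      mulVec_kr A B i _ (E.hη t.1), E.Dξ, F.Dξ, E.Dη, F.Dη, kr_zero_left, kr_zero_right,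
      kr_smul_left, kr_smul_right, zero_add, smul_zero, add_zero, smul_smul, smul_smul, smul_smul,
      ← add_smul]
    have h5 : a t * (-1) ^ (i + 1) * q' t.2 + (-1) ^ i * a' t * q t.1 = 0 := by
      rw [hg, hg', pow_succ]; ring
    rw [h5, zero_smul]

/-- Product of elementary systems, upper part (degrees `i+j+2, i+j+1`). -/
def ESys.tensUp {i j : ℕ} {T U : Type} {q : T → ℤ} {q' : U → ℤ} (E : ESys A i T q)
    (F : ESys B j U q') (g a a' u v : T × U → ℤ) (hg : ∀ t, q t.1 = g t * a t)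
    (hg' : ∀ t, q' t.2 = g t * a' t) (huv : ∀ t, u t * a t + v t * a' t = 1) :
    ESys (A.tens B) (i + j + 1) (T × U) g where
  x := fun t => kr (E.x t.1) (F.x t.2)
  y := fun t => a t • kr (E.y t.1) (F.x t.2) + ((-1 : ℤ) ^ (i + 1) * a' t) • kr (E.x t.1) (F.y t.2)
  ξ := fun t => kr (E.ξ t.1) (F.ξ t.2)
  η := fun t => u t • kr (E.η t.1) (F.ξ t.2) + ((-1 : ℤ) ^ (i + 1) * v t) • kr (E.ξ t.1) (F.η t.2)
  hy := fun t s h => by
    rw [Pi.add_apply, Pi.smul_apply, Pi.smul_apply,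
      kr_deg _ (E.hx t.1) _ (F.hy t.2) (i + j + 1) (by ring) s h,
      kr_deg _ (E.hy t.1) _ (F.hx t.2) (i + j + 1) (by ring) s h]
    simp
  hx := fun t s h => kr_deg _ (E.hx t.1) _ (F.hx t.2) _ (by ring) s h
  hη := fun t s h => by
    rw [Pi.add_apply, Pi.smul_apply, Pi.smul_apply,
      kr_deg _ (E.hξ t.1) _ (F.hη t.2) (i + j + 1) (by ring) s h,
      kr_deg _ (E.hη t.1) _ (F.hξ t.2) (i + j + 1) (by ring) s h]
    simp
  hξ := fun t s h => kr_deg _ (E.hξ t.1) _ (F.hξ t.2) _ (by ring) s h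
  yD := fun t => by
    rw [add_vecMul, smul_vecMul, smul_vecMul, kr_vecMul A B (i + 1) _ (E.hx t.1),
      kr_vecMul A B i _ (E.hy t.1), E.xD, F.yD, E.yD, F.xD, kr_zero_right, kr_zero_left,
      kr_smul_left, kr_smul_right, smul_zero, add_zero, zero_add, smul_smul, smul_smul, smul_smul,
      ← add_smul]
    have h5 : a t * (-1) ^ i * q' t.2 + (-1) ^ (i + 1) * a' t * q t.1 = 0 := by
      rw [hg, hg', pow_succ]; ring
    rw [h5, zero_smul]
  xD := fun t => by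
    rw [kr_vecMul A B (i + 1) _ (E.hx t.1), E.xD, F.xD, kr_smul_left, kr_smul_right, hg, hg',
      smul_add, smul_smul, smul_smul, smul_smul]
    congr 2
    ring
  ηy := fun t => by
    rw [add_dotProduct, dotProduct_add, dotProduct_add]
    simp only [smul_dotProduct, dotProduct_smul, kr_dot]
    rw [E.ξx, F.ηy, E.ηy, F.ξx, dot_deg (by omega) _ _ (E.hx t.1) (E.hη t.1),
      dot_deg (by omega) _ _ (E.hy t.1) (E.hξ t.1)]
    simp only [smul_eq_mul, mul_one, mul_zero, zero_mul, add_zero, zero_add]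
    have h3 := huv t
    have h4 := negpow_sq (i + 1)
    linear_combination h3 + (v t * a' t) * h4
  ηy' := fun t t' h => by
    rw [add_dotProduct, dotProduct_add, dotProduct_add]
    simp only [smul_dotProduct, dotProduct_smul, kr_dot]
    rw [dot_deg (by omega) _ _ (E.hx t'.1) (E.hη t.1),
      dot_deg (by omega) _ _ (E.hy t'.1) (E.hξ t.1)]
    by_cases h1 : t.1 = t'.1
    · have h2 : t.2 ≠ t'.2 := fun h2 => h (Prod.ext h1 h2)
      rw [F.ηy' _ _ h2, F.ξx' _ _ h2]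
      simp
    · rw [E.ξx' _ _ h1, E.ηy' _ _ h1]
      simp
  ξx := fun t => by rw [kr_dot, E.ξx, F.ξx, one_mul]
  ξx' := fun t t' h => by
    rw [kr_dot]
    by_cases h1 : t.1 = t'.1
    · rw [F.ξx' _ _ (fun h2 => h (Prod.ext h1 h2)), mul_zero]
    · rw [E.ξx' _ _ h1, zero_mul]
  Dη := fun t => by
    rw [mulVec_add, mulVec_smul, mulVec_smul, mulVec_kr A B (i + 1) _ (E.hξ t.1),
      mulVec_kr A B i _ (E.hη t.1), E.Dξ, F.Dξ, E.Dη, F.Dη, kr_zero_left, kr_zero_right,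
      kr_smul_left, kr_smul_right, zero_add, smul_zero, add_zero, smul_smul, smul_smul, smul_smul,
      ← add_smul]
    congr 1
    have h1 := hg t
    have h2 := hg' t
    have h3 := huv t
    have h4 := negpow_sq (i + 1)
    linear_combination u t * h1 + (v t * ((-1) ^ (i + 1) * (-1) ^ (i + 1))) * h2 + g t * h3 +
      (v t * g t * a' t) * h4
  Dξ := fun t => by
    rw [mulVec_kr A B (i + 1) _ (E.hξ t.1), E.Dξ, F.Dξ, kr_zero_right, kr_zero_left, smul_zero,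
      add_zero]

end kr

end Pool.H3.L2
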