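import Pool.Agent.H71.L2.CoverProd
import Pool.Agent.H16.L2.M6

/-!
Transport of elementary systems along isomorphisms of based complexes; the cover of an exterior
product.
-/

set_option autoImplicit false

open scoped BigOperators Topology
open Matrix

noncomputable section

namespace Pool.H3.L2

section

variable {A B : BCx ℤ} (e : A.S ≃ B.S) (hdeg : ∀ s, B.deg (e s) = A.deg s)
  (hD : ∀ s t, B.D (e s) (e t) = A.D s t)

include hD in
theorem iso_vecMul (v : A.S → ℤ) :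
    (fun s => v (e.symm s)) ᵥ* B.D = fun s => (v ᵥ* A.D) (e.symm s) := by
  funext s
  obtain ⟨t, rfl⟩ := e.surjective s
  rw [e.symm_apply_apply]
  have h : ((fun s => v (e.symm s)) ᵥ* B.D) (e t) = ∑ u : B.S, v (e.symm u) * B.D u (e t) := rfl
  rw [h, ← Equiv.sum_comp e]
  have h2 : (v ᵥ* A.D) t = ∑ u : A.S, v u * A.D u t := rfl
  rw [h2]
  refine Finset.sum_congr rfl fun u _ => ?_
  rw [e.symm_apply_apply, hD]

include hD in
theorem iso_mulVec (v : A.S → ℤ) :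
    B.D *ᵥ (fun s => v (e.symm s)) = fun s => (A.D *ᵥ v) (e.symm s) := by
  funext s
  obtain ⟨t, rfl⟩ := e.surjective s
  rw [e.symm_apply_apply]
  have h : (B.D *ᵥ (fun s => v (e.symm s))) (e t) = ∑ u : B.S, B.D (e t) u * v (e.symm u) := rfl
  rw [h, ← Equiv.sum_comp e]
  have h2 : (A.D *ᵥ v) t = ∑ u : A.S, A.D t u * v u := rfl
  rw [h2]
  refine Finset.sum_congr rfl fun u _ => ?_
  rw [e.symm_apply_apply, hD]

theorem iso_dot (v w : A.S → ℤ) :
    (fun s => v (e.symm s)) ⬝ᵥ (fun s => w (e.symm s)) = v ⬝ᵥ w := by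
  have h : (fun s => v (e.symm s)) ⬝ᵥ (fun s => w (e.symm s)) =
      ∑ u : B.S, v (e.symm u) * w (e.symm u) := rfl
  rw [h, ← Equiv.sum_comp e]
  simp [dotProduct]

/-- Transport of an elementary system. -/
def ESys.iso {k : ℕ} {T : Type} {q : T → ℤ} (E : ESys A k T q) : ESys B k T q where
  x := fun t s => E.x t (e.symm s)
  y := fun t s => E.y t (e.symm s)
  ξ := fun t s => E.ξ t (e.symm s)
  η := fun t s => E.η t (e.symm s)
  hx := fun t s hs => E.hx t _ (fun h => hs (by rw [← e.apply_symm_apply s, hdeg, h]))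
  hy := fun t s hs => E.hy t _ (fun h => hs (by rw [← e.apply_symm_apply s, hdeg, h]))
  hξ := fun t s hs => E.hξ t _ (fun h => hs (by rw [← e.apply_symm_apply s, hdeg, h]))
  hη := fun t s hs => E.hη t _ (fun h => hs (by rw [← e.apply_symm_apply s, hdeg, h]))
  xD := fun t => by
    rw [iso_vecMul e hD, E.xD]
    rfl
  yD := fun t => by
    rw [iso_vecMul e hD, E.yD]
    rfl
  ξx := fun t => by rw [iso_dot, E.ξx]
  ξx' := fun t t' h => by rw [iso_dot, E.ξx' t t' h]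
  ηy := fun t => by rw [iso_dot, E.ηy]
  ηy' := fun t t' h => by rw [iso_dot, E.ηy' t t' h]
  Dη := fun t => by
    rw [iso_mulVec e hD, E.Dη]
    rfl
  Dξ := fun t => by
    rw [iso_mulVec e hD, E.Dξ]
    rfl

end

theorem iso_symm {A B : BCx ℤ} (e : A.S ≃ B.S) (h1 : ∀ s, B.deg (e s) = A.deg s)
    (h2 : ∀ s t, A.D s t = B.D (e s) (e t)) :
    ∃ e' : B.S ≃ A.S, (∀ s, A.deg (e' s) = B.deg s) ∧ ∀ s t, A.D (e' s) (e' t) = B.D s t := by
  refine ⟨e.symm, fun s => ?_, fun s t => ?_⟩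
  · rw [← h1, e.apply_symm_apply]
  · rw [h2, e.apply_symm_apply, e.apply_symm_apply]

section

variable {G1 G2 : Type} [Group G1] [Group G2]

open Pool.H71.L2

theorem exists_iso_cover_xtens (C1 : BCx (GR G1)) (C2 : BCx (GR G2)) (N1 : Subgroup G1)
    (N2 : Subgroup G2) [N1.Normal] [N1.FiniteIndex] [N2.Normal] [N2.FiniteIndex]
    [(N1.prod N2).Normal] [(N1.prod N2).FiniteIndex] :
    ∃ e : ((C1.cover N1).tens (C2.cover N2)).S ≃ ((C1.xtens C2).cover (N1.prod N2)).S,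
      (∀ s, ((C1.xtens C2).cover (N1.prod N2)).deg (e s) =
        ((C1.cover N1).tens (C2.cover N2)).deg s) ∧
      ∀ s t, ((C1.xtens C2).cover (N1.prod N2)).D (e s) (e t) =
        ((C1.cover N1).tens (C2.cover N2)).D s t := by
  let _ : Fintype (G1 ⧸ N1) := Fintype.ofFinite _
  let _ : DecidableEq (G1 ⧸ N1) := Classical.decEq _
  let _ : Fintype (G2 ⧸ N2) := Fintype.ofFinite _
  let _ : DecidableEq (G2 ⧸ N2) := Classical.decEq _
  let _ : Fintype ((G1 × G2) ⧸ (N1.prod N2)) := Fintype.ofFinite _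
  let _ : DecidableEq ((G1 × G2) ⧸ (N1.prod N2)) := Classical.decEq _
  set φ := QuotientGroup.mk' (N1.prod N2)
  set φ1 := QuotientGroup.mk' N1
  set φ2 := QuotientGroup.mk' N2
  set ψ := quotProd N1 N2 with hψ
  let e : (C1.S × C2.S) × ((G1 × G2) ⧸ (N1.prod N2)) ≃
      (C1.S × (G1 ⧸ N1)) × (C2.S × (G2 ⧸ N2)) :=
    { toFun := fun x => ((x.1.1, (ψ x.2).1), (x.1.2, (ψ x.2).2))
      invFun := fun y => ((y.1.1, y.2.1), ψ.symm (y.1.2, y.2.2))
      left_inv := fun x => by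
        obtain ⟨⟨s1, s2⟩, q⟩ := x
        show ((s1, s2), ψ.symm ((ψ q).1, (ψ q).2)) = ((s1, s2), q)
        rw [Prod.mk.eta, ψ.symm_apply_apply]
      right_inv := fun y => by
        obtain ⟨⟨s1, q1⟩, ⟨s2, q2⟩⟩ := y
        show ((s1, (ψ (ψ.symm (q1, q2))).1), (s2, (ψ (ψ.symm (q1, q2))).2)) = ((s1, q1), (s2, q2))
        rw [ψ.apply_symm_apply] }
  have h1 : ∀ x, ((C1.quot φ1).tens (C2.quot φ2)).deg (e x) = ((C1.xtens C2).quot φ).deg x :=
    fun _ => rfl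
  have h2 : ∀ x y, ((C1.xtens C2).quot φ).D x y =
      ((C1.quot φ1).tens (C2.quot φ2)).D (e x) (e y) :=
    fun x y => quot_xtens_D C1 C2 φ φ1 φ2 ψ (fun _ => rfl) x.1.1 y.1.1 x.1.2 y.1.2 x.2 y.2
  exact iso_symm (A := (C1.xtens C2).quot φ) (B := (C1.quot φ1).tens (C2.quot φ2)) e h1 h2

theorem hasPT_cover_xtens {p k t : ℕ} (C1 : BCx (GR G1)) (C2 : BCx (GR G2)) (N1 : Subgroup G1)
    (N2 : Subgroup G2) [N1.Normal] [N1.FiniteIndex] [N2.Normal] [N2.FiniteIndex]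
    [(N1.prod N2).Normal] [(N1.prod N2).FiniteIndex]
    (h : HasPT p ((C1.cover N1).tens (C2.cover N2)) k t) :
    HasPT p ((C1.xtens C2).cover (N1.prod N2)) k t := by
  obtain ⟨e, hdeg, hD⟩ := exists_iso_cover_xtens C1 C2 N1 N2
  obtain ⟨T, hT, q, hc, hq, ⟨E⟩⟩ := h
  exact ⟨T, hT, q, hc, hq, ⟨E.iso e hdeg hD⟩⟩

end

end Pool.H3.L2
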