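import Pool.Agent.H3.L2.Defs

/-!
Products of closed aspherical manifolds (universal covers with actions) and of residual chains.
-/

set_option autoImplicit false

open scoped BigOperators Manifold ContDiff Topology
open MeasureTheory Filter

noncomputable section

namespace Pool.H3.L2

/-- The product of two closed aspherical manifolds. -/
def AsphericalMfd.prod {n1 n2 n : ℕ} (M1 : AsphericalMfd n1) (M2 : AsphericalMfd n2)
    (h : n1 + n2 = n) : AsphericalMfd n :=
  letI cs : ChartedSpace (M1.V × M2.V) (M1.E × M2.E) := prodChartedSpace M1.V M1.E M2.V M2.E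
  { V := M1.V × M2.V
    finrank_V := by
      rw [Module.finrank_prod, M1.finrank_V, M2.finrank_V, h]
    E := M1.E × M2.E
    charted := cs
    mfd := by
      rw [modelWithCornersSelf_prod]
      have := M1.mfd
      have := M2.mfd
      exact IsManifold.prod M1.E M2.E
    Γ := M1.Γ × M2.Γ
    act :=
      { smul := fun g x => (g.1 • x.1, g.2 • x.2)
        one_smul := fun x => Prod.ext (one_smul _ _) (one_smul _ _)
        mul_smul := fun g g' x => Prod.ext (mul_smul _ _ _) (mul_smul _ _ _) }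
    smooth := by
      rintro ⟨g1, g2⟩
      rw [modelWithCornersSelf_prod]
      exact (M1.smooth g1).prodMap (M2.smooth g2)
    free := by
      rintro ⟨g1, g2⟩ ⟨x1, x2⟩ hx
      have h1 : g1 • x1 = x1 := congrArg Prod.fst hx
      have h2 : g2 • x2 = x2 := congrArg Prod.snd hx
      exact Prod.ext (M1.free g1 x1 h1) (M2.free g2 x2 h2)
    proper := by
      intro K L hK hL
      have h1 := M1.proper (Prod.fst '' K) (Prod.fst '' L) (hK.image continuous_fst)
        (hL.image continuous_fst)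
      have h2 := M2.proper (Prod.snd '' K) (Prod.snd '' L) (hK.image continuous_snd)
        (hL.image continuous_snd)
      refine (h1.prod h2).subset ?_
      rintro ⟨g1, g2⟩ ⟨y, ⟨x, hx, hxy⟩, hy⟩
      constructor
      · exact ⟨y.1, ⟨x.1, ⟨x, hx, rfl⟩, congrArg Prod.fst hxy⟩, ⟨y, hy, rfl⟩⟩
      · exact ⟨y.2, ⟨x.2, ⟨x, hx, rfl⟩, congrArg Prod.snd hxy⟩, ⟨y, hy, rfl⟩⟩
    cocompact := by
      obtain ⟨K1, hK1, h1⟩ := M1.cocompact
      obtain ⟨K2, hK2, h2⟩ := M2.cocompact
      refine ⟨K1 ×ˢ K2, hK1.prod hK2, ?_⟩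
      rintro ⟨x1, x2⟩
      obtain ⟨g1, hg1⟩ := h1 x1
      obtain ⟨g2, hg2⟩ := h2 x2
      exact ⟨(g1, g2), hg1, hg2⟩ }

theorem AsphericalMfd.prod_Γ {n1 n2 n : ℕ} (M1 : AsphericalMfd n1) (M2 : AsphericalMfd n2)
    (h : n1 + n2 = n) : (M1.prod M2 h).Γ = (M1.Γ × M2.Γ) := rfl

/-- The product of two residual chains. -/
def ResChain.prod {Γ1 Γ2 : Type} [Group Γ1] [Group Γ2] (c1 : ResChain Γ1) (c2 : ResChain Γ2) :
    ResChain (Γ1 × Γ2) where
  N := fun i => (c1.N i).prod (c2.N i)
  normal := fun i => Subgroup.prod_normal _ _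
  fin := fun i => by
    refine ⟨?_⟩
    rw [Subgroup.index_prod]
    exact Nat.mul_ne_zero (c1.fin i).index_ne_zero (c2.fin i).index_ne_zero
  zero := by rw [c1.zero, c2.zero, Subgroup.top_prod_top]
  anti := by
    intro i j hij
    have h1 := c1.anti hij
    have h2 := c2.anti hij
    refine lt_of_le_of_ne (Subgroup.prod_mono h1.le h2.le) ?_
    intro heq
    obtain ⟨-, x, hx, hx'⟩ := Set.ssubset_iff_exists.mp (show (c1.N j : Set Γ1) ⊂ c1.N i from h1)
    have : ((x, 1) : Γ1 × Γ2) ∈ (c1.N j).prod (c2.N j) := by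
      have heq' : (c1.N j).prod (c2.N j) = (c1.N i).prod (c2.N i) := heq
      rw [heq']
      exact ⟨hx, one_mem _⟩
    exact hx' this.1
  inf := by
    rw [eq_bot_iff]
    rintro ⟨x, y⟩ hxy
    have h1 : x ∈ ⨅ i, c1.N i := by
      rw [Subgroup.mem_iInf] at hxy ⊢
      exact fun i => (hxy i).1
    have h2 : y ∈ ⨅ i, c2.N i := by
      rw [Subgroup.mem_iInf] at hxy ⊢
      exact fun i => (hxy i).2
    rw [c1.inf, Subgroup.mem_bot] at h1
    rw [c2.inf, Subgroup.mem_bot] at h2
    rw [Subgroup.mem_bot, h1, h2]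
    rfl

theorem ResChain.prod_index {Γ1 Γ2 : Type} [Group Γ1] [Group Γ2] (c1 : ResChain Γ1)
    (c2 : ResChain Γ2) (i : ℕ) :
    ((c1.prod c2).N i).index = (c1.N i).index * (c2.N i).index :=
  Subgroup.index_prod _ _

end Pool.H3.L2
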